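import Pool.Agent.H284.AP.Dec

/-!
# The conditions on the centre for direct products, and quotients of the holomorph
-/

set_option autoImplicit false

namespace Pool.Agent.H284.AP

/-- The composition `G1 → Z(G2) → Z(G3)` is always trivial. -/
def CCt (G1 G2 G3 : Type) [Group G1] [Group G2] [Group G3] : Prop :=
  ∀ (g : G1 →* Subgroup.center G2) (f : G2 →* Subgroup.center G3) (x : G1), f (g x) = 1

section

variable {A : Type} [DecidableEq A] {P : A → Type} [∀ a, Group (P a)]

/-- Extension of a homomorphism between two factors to the product. -/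
def extHom (a b : A) (f : P a →* Subgroup.center (P b)) :
    (∀ a, P a) →* Subgroup.center (∀ a, P a) where
  toFun := fun x => ⟨Pi.mulSingle b (f (x a) : P b), by
    rw [mem_center_pi]
    intro c
    by_cases hc : c = b
    · subst hc; rw [Pi.mulSingle_eq_same]; exact (f (x a)).2
    · rw [Pi.mulSingle_eq_of_ne hc]; exact one_mem _⟩
  map_one' := by apply Subtype.ext; simp
  map_mul' := fun x y => by
    apply Subtype.ext
    change Pi.mulSingle b ((f ((x * y) a) : Subgroup.center (P b)) : P b) =
      Pi.mulSingle b (f (x a) : P b) * Pi.mulSingle b (f (y a) : P b)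
    rw [← Pi.mulSingle_mul, Pi.mul_apply, map_mul]
    rfl

theorem extHom_apply (a b : A) (f : P a →* Subgroup.center (P b)) (x : ∀ a, P a) :
    ((extHom a b f x : Subgroup.center (∀ a, P a)) : ∀ a, P a) =
      Pi.mulSingle b (f (x a) : P b) := rfl

end

theorem cct_of_pi {A : Type} {P : A → Type} [∀ a, Group (P a)] (h : CC (∀ a, P a)) (a b c : A) :
    CCt (P a) (P b) (P c) := by
  classical
  intro g f x
  have h1 := h (extHom b c f) (extHom a b g) (Pi.mulSingle a x)
  have h2 := congrArg (fun w : Subgroup.center (∀ a, P a) => w.1 c) h1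
  apply Subtype.ext
  change ((extHom b c f (extHom a b g (Pi.mulSingle a x) : ∀ a, P a) :
    Subgroup.center (∀ a, P a)) : ∀ a, P a) c = 1 at h2
  rw [extHom_apply, extHom_apply, Pi.mulSingle_eq_same, Pi.mulSingle_eq_same,
    Pi.mulSingle_eq_same] at h2
  exact h2

theorem cct_pi {A B C : Type} [Finite A] [Finite B] {P : A → Type} {Q : B → Type}
    {S : C → Type} [∀ a, Group (P a)] [∀ b, Group (Q b)] [∀ c, Group (S c)]
    (h : ∀ a b c, CCt (P a) (Q b) (S c)) : CCt (∀ a, P a) (∀ b, Q b) (∀ c, S c) := by
  classical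
  intro G F x
  apply Subtype.ext
  funext c
  let Fc : (∀ b, Q b) →* Subgroup.center (S c) :=
    { toFun := fun x => ⟨(F x).1 c, mem_center_pi.1 (F x).2 c⟩
      map_one' := by apply Subtype.ext; simp
      map_mul' := fun x y => by apply Subtype.ext; simp }
  have h1 : ∀ a (y : P a), Fc (G (Pi.mulSingle a y) : ∀ b, Q b) = 1 := by
    intro a y
    have h2 : (G (Pi.mulSingle a y) : ∀ b, Q b) ∈ Fc.ker := by
      apply Subgroup.pi_mem_of_mulSingle_mem
      intro b
      let g : P a →* Subgroup.center (Q b) :=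
        { toFun := fun y => ⟨(G (Pi.mulSingle a y)).1 b, mem_center_pi.1 (G _).2 b⟩
          map_one' := by apply Subtype.ext; simp
          map_mul' := fun x y => by apply Subtype.ext; simp [Pi.mulSingle_mul] }
      exact h a b c g (Fc.comp (MonoidHom.mulSingle Q b)) y
    exact h2
  have h3 : x ∈ (Fc.comp ((Subgroup.center (∀ b, Q b)).subtype.comp G)).ker := by
    apply Subgroup.pi_mem_of_mulSingle_mem
    intro a
    exact h1 a (x a)
  exact congrArg Subtype.val h3

/-- The condition for a product implies the condition for the product of powers. -/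
theorem cc_powers {I : Type} [Finite I] {G : I → Type} [∀ i, Group (G i)]
    (h : CC (∀ i, G i)) (n : I → ℕ) : CC (∀ i, Fin (n i) → G i) := by
  have h1 : CCt (∀ i, Fin (n i) → G i) (∀ i, Fin (n i) → G i) (∀ i, Fin (n i) → G i) :=
    cct_pi fun i j k => cct_pi fun _ _ _ => cct_of_pi h i j k
  exact fun f g x => h1 g f x

/-- The holomorph modulo the commutator subgroup of `EE H`. -/
abbrev HolE (H : Type) [Group H] : Type := Hol H ⧸ ⁅EE H, EE H⁆

/-- The automorphism group modulo the commutator subgroup of the group of central automorphisms. -/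
abbrev AutE (H : Type) [Group H] : Type := MulAut H ⧸ ⁅CentralAut H, CentralAut H⁆

theorem holE_to_hol {H : Type} [Group H] (hH : CC H) :
    ∃ q : HolE H →* Hol H, Function.Surjective q := by
  refine ⟨QuotientGroup.lift _ (MonoidHom.id _) ?_, ?_⟩
  · intro x hx
    have h1 : ⁅EE H, EE H⁆ ≤ ⊥ := by
      rw [Subgroup.commutator_le]
      intro a ha b hb
      rw [Subgroup.mem_bot, commutatorElement_eq_one_iff_mul_comm]
      exact EE_comm hH ha hb
    exact h1 hx
  · intro x
    exact ⟨QuotientGroup.mk x, rfl⟩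

theorem hol_to_aut (H : Type) [Group H] :
    ∃ q : Hol H →* MulAut H, Function.Surjective q :=
  ⟨SemidirectProduct.rightHom, SemidirectProduct.rightHom_surjective⟩

theorem holE_to_autE (H : Type) [Group H] :
    ∃ q : HolE H →* AutE H, Function.Surjective q := by
  refine ⟨QuotientGroup.map _ _ SemidirectProduct.rightHom ?_, ?_⟩
  · rw [Subgroup.commutator_le]
    intro a ha b hb
    rw [Subgroup.mem_comap, map_commutatorElement]
    exact Subgroup.commutator_mem_commutator ha.2 hb.2
  · intro x
    obtain ⟨y, rfl⟩ := QuotientGroup.mk_surjective x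
    exact ⟨QuotientGroup.mk (SemidirectProduct.inr y), rfl⟩

theorem centralAut_congr {H H' : Type} [Group H] [Group H'] (e : H ≃* H') {θ : MulAut H}
    (hθ : θ ∈ CentralAut H) : MulAut.congr e θ ∈ CentralAut H' := by
  intro y
  obtain ⟨x, rfl⟩ := e.surjective y
  have h1 : MulAut.congr e θ (e x) = e (θ x) := by simp
  rw [h1, ← map_inv, ← map_mul]
  exact (Subgroup.centerCongr e ⟨_, hθ x⟩).2

theorem Z1_congr {H H' : Type} [Group H] [Group H'] (e : H ≃* H') {z : H} (hz : z ∈ Z1 H) :
    e z ∈ Z1 H' := by
  have h : Z1 H ≤ (Z1 H').comap e.toMonoidHom := by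
    rw [Z1, Subgroup.closure_le]
    rintro _ ⟨θ, hθ, x, rfl⟩
    change e (θ x * x⁻¹) ∈ Z1 H'
    have h1 := mem_Z1 (centralAut_congr e hθ) (e x)
    have h2 : MulAut.congr e θ (e x) = e (θ x) := by simp
    rw [h2] at h1
    rwa [map_mul, map_inv]
  exact h hz

theorem holE_congr {H H' : Type} [Group H] [Group H'] (e : H ≃* H') :
    ∃ q : HolE H →* HolE H', Function.Surjective q := by
  let f : Hol H ≃* Hol H' := SemidirectProduct.congr e (MulAut.congr e) (by intro g; ext x; simp)
  have hA : ∀ w ∈ EE H, f w ∈ EE H' := fun w hw =>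
    ⟨Z1_congr e hw.1, centralAut_congr e hw.2⟩
  refine ⟨QuotientGroup.map _ _ f.toMonoidHom ?_, ?_⟩
  · rw [Subgroup.commutator_le]
    intro a ha b hb
    rw [Subgroup.mem_comap, map_commutatorElement]
    exact Subgroup.commutator_mem_commutator (hA a ha) (hA b hb)
  · intro x
    obtain ⟨y, rfl⟩ := QuotientGroup.mk_surjective x
    obtain ⟨z, rfl⟩ := f.surjective y
    exact ⟨QuotientGroup.mk z, rfl⟩

end Pool.Agent.H284.AP
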