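import Pool.Agent.H284.AP.Cc
import Pool.Agent.TH444.TW.Fin

/-!
# The holomorphs in the class of realizable steps
-/

set_option autoImplicit false

namespace Pool.Agent.H284.AP

open Pool.Agent.H391R2 (Wr)
open Pool.Agent.H391R2
open Pool.Agent.TH444.TW

section

variable {K : Type} [Field K] {Γ : Type} [Group Γ]

theorem cls_quot {U U' : Type} [Group U] [Group U'] (q : U →* U') (hq : Function.Surjective q)
    (h : Cls K (MonoidHom.fst Γ U)) : Cls K (MonoidHom.fst Γ U') := by
  refine Cls.quot (MonoidHom.fst Γ U') (MonoidHom.prodMap (MonoidHom.id Γ) q) ?_ ?_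
  · rintro ⟨γ, u⟩
    obtain ⟨v, rfl⟩ := hq u
    exact ⟨(γ, v), rfl⟩
  · have h1 : (MonoidHom.fst Γ U').comp (MonoidHom.prodMap (MonoidHom.id Γ) q) =
        MonoidHom.fst Γ U := by
      ext x <;> rfl
    rw [h1]
    exact h

theorem cls_triv (U : Type) [Group U] [Subsingleton U] : Cls K (MonoidHom.fst Γ U) := by
  refine Cls.abelian _ (MonoidHom.inl Γ U) (fun w => rfl) ?_ ?_
  · refine @Finite.of_subsingleton _ ⟨fun a b => ?_⟩
    apply Subtype.ext
    apply Prod.ext
    · exact (MonoidHom.mem_ker.1 a.2).trans (MonoidHom.mem_ker.1 b.2).symm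
    · exact Subsingleton.elim _ _
  · intro x y hx hy
    apply Prod.ext
    · change x.1 * y.1 = y.1 * x.1
      have h1 : x.1 = 1 := hx
      have h2 : y.1 = 1 := hy
      rw [h1, h2]
    · exact Subsingleton.elim _ _

theorem cls_wr (B : Type) [Group B] [Finite B] (m : ℕ)
    (hm : ((3 * Nat.card B + 2).factorial) ^ 3 ≤ m) (U : Type) [Group U]
    (h : Cls K (MonoidHom.fst Γ U)) : Cls K (MonoidHom.fst Γ (Wr B m × U)) := by
  let p : Γ × (Wr B m × U) →* Γ × U :=
    MonoidHom.prodMap (MonoidHom.id Γ) (MonoidHom.snd (Wr B m) U)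
  have hp : IsTwistedPower B m p := by
    refine ⟨1, 1,
      { toFun := fun x => (1, (x 0, 1))
        map_one' := rfl
        map_mul' := fun x y => by simp },
      { toFun := fun w => (w.1, (1, w.2))
        map_one' := rfl
        map_mul' := fun x y => by simp }, ?_, ?_, fun w => rfl, ?_⟩
    · intro x y hxy
      funext i
      have h1 : x 0 = y 0 := congrArg (fun w : Γ × (Wr B m × U) => w.2.1) hxy
      rw [Subsingleton.elim i 0, h1]
    · ext w
      constructor
      · rintro ⟨x, rfl⟩
        rfl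
      · intro hw
        have h1 : p w = 1 := hw
        have h2 : w.1 = 1 := congrArg Prod.fst h1
        have h3 : w.2.2 = 1 := congrArg Prod.snd h1
        refine ⟨fun _ => w.2.1, ?_⟩
        change ((1 : Γ), (w.2.1, (1 : U))) = w
        rw [← h2, ← h3]
    · intro w x
      change (w.1 * 1, ((1 : Wr B m) * x 0, w.2 * 1)) =
        (1 * w.1, (twist ((1 : Wr (MulAut B) 1).left 0)
          (x ((1 : Wr (MulAut B) 1).right⁻¹ 0)) * 1, 1 * w.2))
      have h1 : x ((1 : Wr (MulAut B) 1).right⁻¹ 0) = x 0 := by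
        rw [Subsingleton.elim ((1 : Wr (MulAut B) 1).right⁻¹ 0) 0]
      rw [h1, mul_one, one_mul, one_mul, mul_one, mul_one, one_mul]
      rfl
  have h2 : (MonoidHom.fst Γ U).comp p = MonoidHom.fst Γ (Wr B m × U) := by
    ext x <;> rfl
  rw [← h2]
  exact Cls.comp _ _ h (Cls.wreath p B m hm hp)

theorem cls_pi (J : Type) [Finite J] : ∀ (B : J → Type) [∀ j, Group (B j)] [∀ j, Finite (B j)]
    (m : J → ℕ), (∀ j, ((3 * Nat.card (B j) + 2).factorial) ^ 3 ≤ m j) →
    Cls K (MonoidHom.fst Γ (∀ j, Wr (B j) (m j))) := by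
  induction J using Finite.induction_empty_option with
  | @of_equiv α β e ih =>
    intro B _ _ m hm
    have h1 := ih (fun a => B (e a)) (fun a => m (e a)) (fun a => hm (e a))
    obtain ⟨f⟩ := reindex e (T := fun j => Wr (B j) (m j)) (R' := fun a => Wr (B (e a)) (m (e a)))
      (fun a => MulEquiv.refl _)
    exact cls_quot f.symm.toMonoidHom f.symm.surjective h1
  | h_empty =>
    intro B _ _ m hm
    exact cls_triv _
  | @h_option α _ ih =>
    intro B _ _ m hm
    have h1 := ih (fun a => B (some a)) (fun a => m (some a)) (fun a => hm (some a))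
    have h2 := cls_wr (B none) (m none) (hm none) _ h1
    let f : (Wr (B none) (m none) × (∀ a : α, Wr (B (some a)) (m (some a)))) →*
        (∀ j, Wr (B j) (m j)) :=
      { toFun := fun p j =>
          match j with
          | none => p.1
          | some a => p.2 a
        map_one' := by funext j; cases j <;> rfl
        map_mul' := fun x y => by funext j; cases j <;> rfl }
    refine cls_quot f ?_ h2
    intro y
    refine ⟨(y none, fun a => y (some a)), ?_⟩
    funext j
    cases j <;> rfl

theorem cls_cover {U X : Type} [Group U] [Group X] (h : Cls K (MonoidHom.fst Γ U)) (ι : U →* X)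
    (A : Subgroup X) [A.Normal] [Finite A] (hA : ∀ a ∈ A, ∀ b ∈ A, a * b = b * a)
    (hX : ∀ x, ∃ u, x * (ι u)⁻¹ ∈ A) : Cls K (MonoidHom.fst Γ X) := by
  let ψ : U →* MulAut A := (MulAut.conjNormal (H := A)).comp ι
  let q : A ⋊[ψ] U →* X := SemidirectProduct.lift A.subtype ι (by
    intro u
    ext a
    simp [ψ, MulAut.conjNormal_apply])
  have hq : Function.Surjective q := by
    intro x
    obtain ⟨u, hu⟩ := hX x
    refine ⟨⟨⟨x * (ι u)⁻¹, hu⟩, u⟩, ?_⟩
    change (x * (ι u)⁻¹) * ι u = x
    rw [inv_mul_cancel_right]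
  refine cls_quot q hq ?_
  let p : Γ × (A ⋊[ψ] U) →* Γ × U :=
    MonoidHom.prodMap (MonoidHom.id Γ) SemidirectProduct.rightHom
  have hp1 : ∀ w, p w = 1 → w.1 = 1 ∧ w.2.right = 1 := fun w hw =>
    ⟨congrArg Prod.fst hw, congrArg Prod.snd hw⟩
  have hp : Cls K p := by
    refine Cls.abelian p (MonoidHom.prodMap (MonoidHom.id Γ) SemidirectProduct.inr)
      (fun w => rfl) ?_ ?_
    · refine Finite.of_injective (fun w : p.ker => w.1.2.left) ?_
      intro w w' hww
      obtain ⟨h1, h2⟩ := hp1 w.1 w.2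
      obtain ⟨h3, h4⟩ := hp1 w'.1 w'.2
      apply Subtype.ext
      apply Prod.ext
      · rw [h1, h3]
      · apply SemidirectProduct.ext hww
        rw [h2, h4]
    · intro w w' hw hw'
      obtain ⟨h1, h2⟩ := hp1 w hw
      obtain ⟨h3, h4⟩ := hp1 w' hw'
      apply Prod.ext
      · change w.1 * w'.1 = w'.1 * w.1
        rw [h1, h3]
      · apply SemidirectProduct.ext
        · change w.2.left * ψ w.2.right w'.2.left = w'.2.left * ψ w'.2.right w.2.left
          rw [h2, h4, map_one]
          exact Subtype.ext (hA _ w.2.left.2 _ w'.2.left.2)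
        · change w.2.right * w'.2.right = w'.2.right * w.2.right
          rw [h2, h4]
  have h2 : (MonoidHom.fst Γ U).comp p = MonoidHom.fst Γ (A ⋊[ψ] U) := by
    ext x <;> rfl
  rw [← h2]
  exact Cls.comp _ _ h hp

end

instance finite_hol (H : Type) [Group H] [Finite H] : Finite (Hol H) :=
  Finite.of_equiv _ SemidirectProduct.equivProd.symm

theorem card_hol_le (H : Type) [Group H] [Finite H] (c : ℕ) (hc : Nat.card H ≤ c) :
    Nat.card (Hol H) ≤ c * c.factorial := by
  have h1 : Nat.card (Hol H) = Nat.card H * Nat.card (MulAut H) := by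
    rw [← Nat.card_prod]
    exact Nat.card_congr SemidirectProduct.equivProd
  have h2 : Nat.card (MulAut H) ≤ (Nat.card H).factorial := by
    rw [← Nat.card_perm]
    exact Nat.card_le_card_of_injective (fun e : MulAut H => (e.toEquiv : Equiv.Perm H))
      (fun e e' h => MulEquiv.toEquiv_injective h)
  rw [h1]
  exact Nat.mul_le_mul hc (h2.trans (Nat.factorial_le hc))

/-- The bound for the exponents. -/
def bd (c : ℕ) : ℕ := ((3 * (c * c.factorial) + 2).factorial) ^ 3

/-- The general theorem on the class of realizable steps. -/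
theorem cls_holE (K : Type) [Field K] (Γ : Type) [Group Γ] {I : Type} [Finite I] (G : I → Type)
    [∀ i, Group (G i)] [∀ i, Finite (G i)] (n : I → ℕ)
    (hn : ∀ i, bd (Nat.card (G i)) ≤ n i) :
    Cls K (MonoidHom.fst Γ (HolE (∀ i, Fin (n i) → G i))) := by
  obtain ⟨J, i1, R, i2, i3, m, i4, h1, h3, h4, ⟨e⟩⟩ := grouping G n
  have hU : Cls K (MonoidHom.fst Γ (∀ j, Wr (Hol (R j)) (m j))) := by
    apply cls_pi
    intro j
    obtain ⟨i, h5, h6⟩ := h4 j
    refine le_trans ?_ ((hn i).trans h5)
    unfold bd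
    have h7 := card_hol_le (R j) _ h6
    exact Nat.pow_le_pow_left (Nat.factorial_le (by omega)) 3
  have hfin : Finite (HolE (PP R m)) := Finite.of_surjective _ QuotientGroup.mk_surjective
  have hX : Cls K (MonoidHom.fst Γ (HolE (PP R m))) := by
    let N : Subgroup (Hol (PP R m)) := ⁅EE (PP R m), EE (PP R m)⁆
    have hnor : ((EE (PP R m)).map (QuotientGroup.mk' N)).Normal :=
      EE_normal.map _ (QuotientGroup.mk'_surjective N)
    refine cls_cover hU ((QuotientGroup.mk' N).comp iota) ((EE (PP R m)).map (QuotientGroup.mk' N))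
      ?_ ?_
    · rintro _ ⟨a, ha, rfl⟩ _ ⟨b, hb, rfl⟩
      rw [← commutatorElement_eq_one_iff_mul_comm, ← map_commutatorElement]
      exact (QuotientGroup.eq_one_iff _).2 (Subgroup.commutator_mem_commutator ha hb)
    · intro x
      obtain ⟨w, rfl⟩ := QuotientGroup.mk'_surjective N x
      obtain ⟨u, hu⟩ := cover h1 h3 w
      refine ⟨u, w * (iota u)⁻¹, hu, ?_⟩
      rw [map_mul, map_inv]
      rfl
  obtain ⟨q, hq⟩ := holE_congr e.symm
  exact cls_quot q hq hX

end Pool.Agent.H284.AP
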