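import Pool.Agent.H284.AP.Hol

/-!
# Decompositions into indecomposable factors, and the condition on the centre
-/

set_option autoImplicit false

namespace Pool.Agent.H284.AP

theorem mem_center_pi {A : Type} {P : A → Type} [∀ a, Group (P a)] {z : ∀ a, P a} :
    z ∈ Subgroup.center (∀ a, P a) ↔ ∀ a, z a ∈ Subgroup.center (P a) := by
  classical
  constructor
  · intro h a
    rw [Subgroup.mem_center_iff] at h ⊢
    intro g
    have := congrFun (h (Pi.mulSingle a g)) a
    simpa using this
  · intro h
    rw [Subgroup.mem_center_iff]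
    intro g
    funext a
    exact Subgroup.mem_center_iff.1 (h a) (g a)

/-- Existence of decompositions. -/
theorem exists_dec : ∀ (N : ℕ) (G : Type) [Group G] [Finite G], Nat.card G ≤ N →
    ∃ (A : Type) (_ : Finite A) (P : A → Type) (_ : ∀ a, Group (P a)),
      (∀ a, Finite (P a)) ∧ (∀ a, Nontrivial (P a)) ∧ (∀ a, Indec (P a)) ∧
      Nonempty (G ≃* ∀ a, P a) := by
  intro N
  induction N with
  | zero =>
    intro G _ _ hG
    have := Nat.card_pos (α := G)
    omega
  | succ N ih =>
    intro G _ _ hG
    by_cases hs : Subsingleton G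
    · refine ⟨Empty, inferInstance, fun _ => G, fun _ => inferInstance, fun a => a.elim,
        fun a => a.elim, fun a => a.elim, ⟨?_⟩⟩
      exact
        { toFun := fun _ a => a.elim
          invFun := fun _ => 1
          left_inv := fun x => Subsingleton.elim _ _
          right_inv := fun x => funext fun a => a.elim
          map_mul' := fun x y => funext fun a => a.elim }
    have hnt : Nontrivial G := not_subsingleton_iff_nontrivial.1 hs
    by_cases hI : Indec G
    · refine ⟨Unit, inferInstance, fun _ => G, fun _ => inferInstance, fun _ => inferInstance,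
        fun _ => hnt, fun _ => hI, ⟨?_⟩⟩
      exact
        { toFun := fun x _ => x
          invFun := fun x => x ()
          left_inv := fun x => rfl
          right_inv := fun x => rfl
          map_mul' := fun x y => rfl }
    · unfold Indec at hI
      push Not at hI
      obtain ⟨A, B, hA, hB, hinf, hsup, hA1, hB1⟩ := hI
      have hcomm : ∀ (x : A) (y : B), Commute (A.subtype x) (B.subtype y) := fun x y =>
        Subgroup.commute_of_normal_of_disjoint A B hA hB (disjoint_iff.2 hinf) x y x.2 y.2
      let f : A × B →* G := MonoidHom.noncommCoprod A.subtype B.subtype hcomm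
      have hfapp : ∀ p, f p = (p.1 : G) * p.2 := fun p => rfl
      have hfi : Function.Injective f := by
        rw [injective_iff_map_eq_one]
        rintro ⟨a, b⟩ hab
        rw [hfapp] at hab
        have h1 : (a : G) = (b : G)⁻¹ := eq_inv_of_mul_eq_one_left hab
        have h2 : (a : G) ∈ A ⊓ B := ⟨a.2, by rw [h1]; exact B.inv_mem b.2⟩
        rw [hinf, Subgroup.mem_bot] at h2
        have h3 : (b : G) = 1 := by rw [h2] at hab; simpa using hab
        exact Prod.ext (Subtype.ext h2) (Subtype.ext h3)
      have hfs : Function.Surjective f := by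
        intro x
        have hx : x ∈ A ⊔ B := by rw [hsup]; trivial
        obtain ⟨a, ha, b, hb, rfl⟩ := Subgroup.mem_sup_of_normal_right.1 hx
        exact ⟨(⟨a, ha⟩, ⟨b, hb⟩), rfl⟩
      let e : A × B ≃* G := MulEquiv.ofBijective f ⟨hfi, hfs⟩
      have hcard : Nat.card A * Nat.card B = Nat.card G := by
        rw [← Nat.card_prod]
        exact Nat.card_congr e.toEquiv
      have hA2 : 2 ≤ Nat.card A := by
        by_contra h
        exact hA1 (Subgroup.eq_bot_of_card_le A (by omega))
      have hB2 : 2 ≤ Nat.card B := by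
        by_contra h
        exact hB1 (Subgroup.eq_bot_of_card_le B (by omega))
      obtain ⟨A1, i1, P1, i2, i3, i4, i5, ⟨e1⟩⟩ := ih A (by nlinarith)
      obtain ⟨A2, j1, P2, j2, j3, j4, j5, ⟨e2⟩⟩ := ih B (by nlinarith)
      let inst : ∀ s : A1 ⊕ A2, Group (Sum.elim P1 P2 s) := fun s =>
        match s with
        | .inl a => i2 a
        | .inr b => j2 b
      let e3 : ((∀ a, P1 a) × (∀ b, P2 b)) ≃* (∀ s : A1 ⊕ A2, Sum.elim P1 P2 s) :=
        { toFun := fun p s =>
            match s with
            | .inl a => p.1 a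
            | .inr b => p.2 b
          invFun := fun y => (fun a => y (.inl a), fun b => y (.inr b))
          left_inv := fun p => rfl
          right_inv := fun y => by funext s; cases s <;> rfl
          map_mul' := fun p q => by funext s; cases s <;> rfl }
      refine ⟨A1 ⊕ A2, inferInstance, Sum.elim P1 P2, inst, ?_, ?_, ?_,
        ⟨(e.symm.trans (MulEquiv.prodCongr e1 e2)).trans e3⟩⟩
      · rintro (a | b)
        · exact i3 a
        · exact j3 b
      · rintro (a | b)
        · exact i4 a
        · exact j4 b
      · rintro (a | b)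
        · exact i5 a
        · exact j5 b

theorem reindex {S Q : Type} (E : S ≃ Q) {T : Q → Type} {R' : S → Type} [∀ q, Group (T q)]
    [∀ s, Group (R' s)] (iso : ∀ s, T (E s) ≃* R' s) :
    Nonempty ((∀ q, T q) ≃* (∀ s, R' s)) := by
  let f : (∀ q, T q) →* (∀ s, R' s) :=
    { toFun := fun y s => iso s (y (E s))
      map_one' := by funext s; simp
      map_mul' := fun x y => by funext s; simp }
  refine ⟨MulEquiv.ofBijective f ⟨?_, ?_⟩⟩
  · intro y y' h
    funext q
    obtain ⟨s, rfl⟩ := E.surjective q
    exact (iso s).injective (congrFun h s)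
  · intro r
    refine ⟨(Equiv.piCongrLeft T E) (fun s => (iso s).symm (r s)), ?_⟩
    funext s
    change iso s ((Equiv.piCongrLeft T E) (fun s => (iso s).symm (r s)) (E s)) = r s
    rw [Equiv.piCongrLeft_apply_apply, MulEquiv.apply_symm_apply]

/-- The product of the powers `G i ^ (n i)` is a product of indecomposable groups with large
multiplicities. -/
theorem grouping {I : Type} [Finite I] (G : I → Type) [∀ i, Group (G i)] [∀ i, Finite (G i)]
    (n : I → ℕ) :
    ∃ (J : Type) (_ : Finite J) (R : J → Type) (_ : ∀ j, Group (R j)) (_ : ∀ j, Finite (R j))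
      (m : J → ℕ), (∀ j, Nontrivial (R j)) ∧ (∀ j, Indec (R j)) ∧
      (∀ j j', Nonempty (R j ≃* R j') → j = j') ∧
      (∀ j, ∃ i, n i ≤ m j ∧ Nat.card (R j) ≤ Nat.card (G i)) ∧
      Nonempty ((∀ i, Fin (n i) → G i) ≃* PP R m) := by
  classical
  choose A i1 P i2 i3 i4 i5 i6 using fun i => exists_dec (Nat.card (G i)) (G i) le_rfl
  let ε : ∀ i, G i ≃* ∀ a, P i a := fun i => (i6 i).some
  let B : Type := Σ i, A i
  let T : B → Type := fun b => P b.1 b.2
  let rel : Setoid B :=
    { r := fun b b' => Nonempty (T b ≃* T b')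
      iseqv :=
        { refl := fun b => ⟨MulEquiv.refl _⟩
          symm := fun h => ⟨h.some.symm⟩
          trans := fun h h' => ⟨h.some.trans h'.some⟩ } }
  let J : Type := Quotient rel
  let Q : Type := Σ b : B, Fin (n b.1)
  let fib : J → Type := fun j => {q : Q // (Quotient.mk rel q.1 : J) = j}
  have hfin : ∀ j, Finite (fib j) := fun j => inferInstance
  let m : J → ℕ := fun j => Nat.card (fib j)
  let E : (Σ j, Fin (m j)) ≃ Q :=
    (Equiv.sigmaCongrRight fun j => (Finite.equivFin (fib j)).symm).trans
      (Equiv.sigmaFiberEquiv fun q : Q => (Quotient.mk rel q.1 : J))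
  have hE : ∀ s, (Quotient.mk rel (E s).1 : J) = s.1 := fun s =>
    ((Finite.equivFin (fib s.1)).symm s.2).2
  let R : J → Type := fun j => T j.out
  refine ⟨J, inferInstance, R, fun j => i2 _ _, fun j => i3 _ _, m, fun j => i4 _ _,
    fun j => i5 _ _, ?_, ?_, ?_⟩
  · intro j j' h
    have h1 : (Quotient.mk rel j.out : J) = Quotient.mk rel j'.out := Quotient.sound h
    rwa [Quotient.out_eq, Quotient.out_eq] at h1
  · intro j
    refine ⟨j.out.1, ?_, ?_⟩
    · have h1 := Nat.card_le_card_of_injective
        (fun k : Fin (n j.out.1) => (⟨⟨j.out, k⟩, Quotient.out_eq j⟩ : fib j)) (by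
          intro k k' h
          have h2 : (⟨j.out, k⟩ : Σ b : B, Fin (n b.1)) = ⟨j.out, k'⟩ := congrArg Subtype.val h
          exact eq_of_heq (Sigma.mk.inj h2).2)
      rwa [Nat.card_fin] at h1
    · have h1 := Nat.card_congr (ε j.out.1).toEquiv
      rw [h1]
      have : Finite (∀ a, P j.out.1 a) := Finite.of_equiv _ (ε j.out.1).toEquiv
      exact Nat.card_le_card_of_injective
        (fun x : P j.out.1 j.out.2 => (Pi.mulSingle j.out.2 x : ∀ a, P j.out.1 a))
        (Pi.mulSingle_injective _)
  · have hiso : ∀ s : (Σ j, Fin (m j)), Nonempty (T (E s).1 ≃* R s.1) := by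
      intro s
      have h1 : (Quotient.mk rel (E s).1 : J) = Quotient.mk rel s.1.out := by
        rw [hE, Quotient.out_eq]
      exact Quotient.exact h1
    obtain ⟨e2⟩ := reindex E (T := fun q : Q => T q.1) (R' := fun s => R s.1)
      (fun s => (hiso s).some)
    let e1 : (∀ i, Fin (n i) → G i) ≃* (∀ q : Q, T q.1) :=
      { toFun := fun x q => ε q.1.1 (x q.1.1 q.2) q.1.2
        invFun := fun y i k => (ε i).symm (fun a => y ⟨⟨i, a⟩, k⟩)
        left_inv := fun x => by
          funext i k
          change (ε i).symm (ε i (x i k)) = x i k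
          rw [MulEquiv.symm_apply_apply]
        right_inv := fun y => by
          funext q
          change ε q.1.1 ((ε q.1.1).symm (fun a => y ⟨⟨q.1.1, a⟩, q.2⟩)) q.1.2 = y q
          rw [MulEquiv.apply_symm_apply]
        map_mul' := fun x y => by
          funext q
          simp only [Pi.mul_apply, map_mul] }
    exact ⟨e1.trans e2⟩

end Pool.Agent.H284.AP
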