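import Pool.Agent.H284.AP.Dec
import Pool.Agent.TH59.WX.GT2
import Pool.Agent.TH59.WX.PA

/-!
# Automorphisms of direct products of wreath products, and lifting of outer actions
-/

set_option autoImplicit false

namespace Pool.Agent.H284.AP

open Pool.Agent.H391R2 (Wr)
open Pool.Agent.H391R2
open Pool.Agent.TH59.WX (sgl sgl_left_self sgl_inj rel_conj rel_unique rel_mul exists_D fix_of_comm
  wr_ext sgl_right base_mul_left sgl_left Rel wr_indec)

section rho

variable {J : Type} {T : J → Type} [∀ j, Group (T j)] {k : J → ℕ}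

/-- The automorphism of the product given by automorphisms of the factors and permutations. -/
def rhoF (u : ∀ j, Wr (MulAut (T j)) (k j)) : MulAut (PP T k) where
  toFun x := fun a => (u a.1).left a.2 (x ⟨a.1, (u a.1).right⁻¹ a.2⟩)
  invFun x := fun a => ((u a.1).left ((u a.1).right a.2)).symm (x ⟨a.1, (u a.1).right a.2⟩)
  left_inv x := by
    funext a
    change ((u a.1).left ((u a.1).right a.2)).symm
      ((u a.1).left ((u a.1).right a.2) (x ⟨a.1, (u a.1).right⁻¹ ((u a.1).right a.2)⟩)) = x a
    have h : (u a.1).right⁻¹ ((u a.1).right a.2) = a.2 := by simp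
    rw [MulEquiv.symm_apply_apply, h]
  right_inv x := by
    funext a
    change (u a.1).left a.2
      (((u a.1).left ((u a.1).right ((u a.1).right⁻¹ a.2))).symm
        (x ⟨a.1, (u a.1).right ((u a.1).right⁻¹ a.2)⟩)) = x a
    have h : (u a.1).right ((u a.1).right⁻¹ a.2) = a.2 := by simp
    rw [h, MulEquiv.apply_symm_apply]
  map_mul' x y := by
    funext a
    simp only [Pi.mul_apply, map_mul]

/-- The homomorphism to the automorphism group. -/
def rho : (∀ j, Wr (MulAut (T j)) (k j)) →* MulAut (PP T k) where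
  toFun := rhoF
  map_one' := by
    ext x : 1
    funext a
    change (1 : MulAut (T a.1)) (x ⟨a.1, (1 : Equiv.Perm (Fin (k a.1)))⁻¹ a.2⟩) = x a
    have h : (1 : Equiv.Perm (Fin (k a.1)))⁻¹ a.2 = a.2 := by simp
    rw [h]
    rfl
  map_mul' u v := by
    ext x : 1
    funext a
    change ((u a.1) * (v a.1)).left a.2 (x ⟨a.1, ((u a.1) * (v a.1)).right⁻¹ a.2⟩) = _
    rw [wr_mul_left, wr_mul_right, mul_inv_rev]
    rfl

theorem rho_apply (u : ∀ j, Wr (MulAut (T j)) (k j)) (x : PP T k) (a : Σ j, Fin (k j)) :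
    rho u x a = (u a.1).left a.2 (x ⟨a.1, (u a.1).right⁻¹ a.2⟩) := rfl

theorem rho_inj [∀ j, Nontrivial (T j)] : Function.Injective (rho (T := T) (k := k)) := by
  classical
  rw [injective_iff_map_eq_one]
  intro u hu
  have h : ∀ (x : PP T k) (a : Σ j, Fin (k j)),
      (u a.1).left a.2 (x ⟨a.1, (u a.1).right⁻¹ a.2⟩) = x a := by
    intro x a
    rw [← rho_apply, hu]
    rfl
  have h1 : ∀ j i, (u j).right⁻¹ i = i := by
    intro j i
    by_contra hne
    obtain ⟨t, ht⟩ := exists_ne (1 : T j)
    have h2 := h (Pi.mulSingle ⟨j, i⟩ t) ⟨j, i⟩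
    rw [Pi.mulSingle_eq_same, Pi.mulSingle_eq_of_ne, map_one] at h2
    · exact ht h2.symm
    · intro h3
      exact hne (eq_of_heq (Sigma.mk.inj h3).2)
  funext j
  apply SemidirectProduct.ext
  · funext i
    ext t
    have h2 := h (Pi.mulSingle ⟨j, i⟩ t) ⟨j, i⟩
    dsimp only at h2
    rw [h1, Pi.mulSingle_eq_same] at h2
    exact h2
  · have h3 : (u j).right⁻¹ = 1 := Equiv.ext fun i => h1 j i
    exact inv_eq_one.1 h3

theorem rho_surj [Finite J] [∀ j, Finite (T j)] [∀ j, Nontrivial (T j)]
    (hI : ∀ j, Indec (T j)) (hne : ∀ j j', Nonempty (T j ≃* T j') → j = j')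
    (hZ : ∀ j, Subgroup.center (T j) = ⊥) : Function.Surjective (rho (T := T) (k := k)) := by
  have hc : Subgroup.center (PP T k) = ⊥ := by
    rw [eq_bot_iff]
    intro z hz
    rw [Subgroup.mem_bot]
    funext a
    have h := mem_center_pi.1 hz a
    rw [hZ] at h
    exact h
  have hE : EE (PP T k) = ⊥ := by
    rw [eq_bot_iff]
    rintro w ⟨h1, h2⟩
    rw [Subgroup.mem_bot]
    apply SemidirectProduct.ext
    · have h3 := Z1_le h1
      rw [hc] at h3
      exact h3
    · refine MulEquiv.ext fun x => ?_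
      have h3 := h2 x
      rw [hc, Subgroup.mem_bot] at h3
      exact mul_inv_eq_one.1 h3
  intro a
  obtain ⟨u, hu⟩ := cover hI hne (SemidirectProduct.inr a : Hol (PP T k))
  rw [hE, Subgroup.mem_bot, mul_inv_eq_one] at hu
  refine ⟨fun j => ⟨fun i => ((u j).left i).right, (u j).right⟩, ?_⟩
  have h1 : a = (iota u).right := congrArg (fun w : Hol (PP T k) => w.right) hu
  rw [h1]
  rfl

end rho

/-- The map of wreath products given by a homomorphism. -/
def wrMap {A B : Type} [Group A] [Group B] (f : A →* B) (n : ℕ) : Wr A n →* Wr B n where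
  toFun x := ⟨fun i => f (x.left i), x.right⟩
  map_one' := by
    apply SemidirectProduct.ext
    · funext i; exact map_one f
    · rfl
  map_mul' x y := by
    apply SemidirectProduct.ext
    · funext i
      change f ((x * y).left i) = f (x.left i) * f (y.left (x.right⁻¹ i))
      rw [wr_mul_left, map_mul]
    · rfl

/-- Products of homomorphisms. -/
def piMap {J : Type} {A B : J → Type} [∀ j, Group (A j)] [∀ j, Group (B j)]
    (f : ∀ j, A j →* B j) : (∀ j, A j) →* (∀ j, B j) where
  toFun x := fun j => f j (x j)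
  map_one' := by funext j; exact map_one (f j)
  map_mul' x y := by funext j; exact map_mul (f j) _ _

/-- A surjective homomorphism of finite groups whose kernel and image have coprime orders
splits. -/
theorem sz_section {P Q : Type} [Group P] [Group Q] [Finite P] (f : P →* Q)
    (hf : Function.Surjective f) (h : Nat.Coprime (Nat.card f.ker) (Nat.card Q)) :
    ∃ σ : Q →* P, ∀ x, f (σ x) = x := by
  have h1 : f.ker.index = Nat.card Q := by
    rw [Subgroup.index_ker, MonoidHom.range_eq_top.2 hf, Subgroup.card_top]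
  obtain ⟨C, hC⟩ := Subgroup.exists_right_complement'_of_coprime (N := f.ker) (by rw [h1]; exact h)
  let g : C →* Q := f.comp C.subtype
  have hg : Function.Bijective g := by
    constructor
    · rw [injective_iff_map_eq_one]
      intro x hx
      have h2 : (x : P) ∈ f.ker ⊓ C := ⟨hx, x.2⟩
      rw [hC.disjoint.eq_bot, Subgroup.mem_bot] at h2
      exact Subtype.ext h2
    · intro y
      obtain ⟨x, rfl⟩ := hf y
      have h2 : x ∈ f.ker ⊔ C := by rw [hC.sup_eq_top]; trivial
      obtain ⟨a, ha, b, hb, rfl⟩ := Subgroup.mem_sup_of_normal_left.1 h2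
      refine ⟨⟨b, hb⟩, ?_⟩
      change f b = f (a * b)
      rw [map_mul, MonoidHom.mem_ker.1 ha, one_mul]
  refine ⟨C.subtype.comp (MulEquiv.ofBijective g hg).symm.toMonoidHom, fun x => ?_⟩
  exact (MulEquiv.ofBijective g hg).apply_symm_apply x

section single

variable {G : Type} [Group G] {n : ℕ}

instance conj_range_normal : (MulAut.conj : G →* MulAut G).range.Normal := by
  refine ⟨?_⟩
  rintro _ ⟨g, rfl⟩ φ
  refine ⟨φ g, ?_⟩
  ext x
  change φ g * x * (φ g)⁻¹ = φ (g * φ⁻¹ x * g⁻¹)
  rw [map_mul, map_mul, map_inv]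
  have : φ (φ⁻¹ x) = x := φ.apply_symm_apply x
  rw [this]

/-- The group of outer automorphisms. -/
abbrev OutG (G : Type) [Group G] : Type := MulAut G ⧸ (MulAut.conj : G →* MulAut G).range

/-- An automorphism that fixes the elements of the factors is the identity. -/
theorem rel_one [Finite G] [Nontrivial G] (hZ : ∀ z : G, (∀ g : G, z * g = g * z) → z = 1)
    (a : MulAut (Wr G n)) (ha : Rel a 1) : a = 1 := by
  have h1 : ∀ i g, a (sgl i g) = sgl i g := fun i g => ha i g
  ext w : 1
  change a w = w
  have h2 : ∀ i g, (w⁻¹ * a w) * sgl i g = sgl i g * (w⁻¹ * a w) := by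
    intro i g
    have h3 := rel_conj w i g
    have h4 : a (MulAut.conj w (sgl i g)) = MulAut.conj w (sgl i g) := by rw [h3, h1]
    rw [MulAut.conj_apply, map_mul, map_mul, map_inv, h1] at h4
    -- a w * s * (a w)⁻¹ = w * s * w⁻¹
    have h5 : a w * sgl i g = w * sgl i g * w⁻¹ * a w := by
      rw [← h4, inv_mul_cancel_right]
    rw [mul_assoc, h5]
    simp only [mul_assoc, inv_mul_cancel_left]
  obtain ⟨c, hc⟩ := exists_ne (1 : G)
  have h3 : (w⁻¹ * a w).right = 1 := Equiv.ext fun i => fix_of_comm _ i c hc (h2 i c)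
  have h4 : w⁻¹ * a w = 1 := by
    refine wr_ext (fun i => ?_) h3
    apply hZ
    intro g
    have h5 := congrArg (fun x : Wr G n => x.left i) (h2 i g)
    rw [base_mul_left _ _ h3, base_mul_left _ _ (sgl_right i g), sgl_left_self] at h5
    exact h5
  rw [inv_mul_eq_one] at h4
  exact h4.symm

/-- The twist automorphisms. -/
def twH (n : ℕ) : MulAut G →* MulAut (Wr G n) where
  toFun c :=
    { toFun := fun y => ⟨fun j => c (y.left j), y.right⟩
      invFun := fun y => ⟨fun j => c.symm (y.left j), y.right⟩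
      left_inv := fun y => by
        apply SemidirectProduct.ext
        · funext j; exact c.symm_apply_apply _
        · rfl
      right_inv := fun y => by
        apply SemidirectProduct.ext
        · funext j; exact c.apply_symm_apply _
        · rfl
      map_mul' := fun x y => by
        apply SemidirectProduct.ext
        · funext j
          change c ((x * y).left j) = c (x.left j) * c (y.left (x.right⁻¹ j))
          rw [wr_mul_left, map_mul]
        · rfl }
  map_one' := by ext y : 1; rfl
  map_mul' c d := by ext y : 1; rfl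

theorem twH_rel [Finite G] (c : MulAut G) : Rel (twH n c) (⟨fun _ => c, 1⟩ : Wr (MulAut G) n) := by
  intro i g
  refine wr_ext (fun j => ?_) rfl
  change c ((sgl i g).left j) = (sgl i (c g)).left j
  rw [sgl_left, sgl_left]
  by_cases h : j = i
  · rw [if_pos h, if_pos h]
  · rw [if_neg h, if_neg h, map_one]

/-- The outer class of an automorphism of the wreath product. -/
theorem exists_O [Finite G] [Nontrivial G] (hn : 2 * (Nat.card G + 2) ≤ n)
    (hZ : ∀ z : G, (∀ g : G, z * g = g * z) → z = 1) :
    ∃ O : MulAut (Wr G n) →* OutG G,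
      (∀ c : MulAut G, O (twH n c) = QuotientGroup.mk c) ∧
      ∀ a, O a = 1 ↔ ∃ w, a = MulAut.conj w := by
  obtain ⟨D, hD, hDc, hDin⟩ := exists_D (G := G) (n := n) hn hZ
  have hn0 : 0 < n := by
    have := Nat.card_pos (α := G)
    omega
  let j₀ : Fin n := ⟨0, hn0⟩
  have hcl : ∀ a j k, (QuotientGroup.mk ((D a).left j) :
      OutG G) = QuotientGroup.mk ((D a).left k) := by
    intro a j k
    obtain ⟨u, hu⟩ := hDin a j k
    rw [hu, QuotientGroup.mk_mul]
    have : (QuotientGroup.mk (MulAut.conj u) :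
        OutG G) = 1 :=
      (QuotientGroup.eq_one_iff _).2 ⟨u, rfl⟩
    rw [this, one_mul]
  let O : MulAut (Wr G n) →* OutG G :=
    MonoidHom.mk' (fun a => QuotientGroup.mk ((D a).left j₀)) (fun a b => by
      rw [map_mul, wr_mul_left, QuotientGroup.mk_mul, hcl b _ j₀])
  refine ⟨O, ?_, ?_⟩
  · intro c
    have h1 := rel_unique (twH n c) _ _ (hD _) (twH_rel (n := n) c)
    change QuotientGroup.mk ((D (twH n c)).left j₀) = _
    rw [h1]
  · intro a
    constructor
    · intro ha
      have h1 : ∀ i, ∃ g : G, MulAut.conj g = (D a).left i := by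
        intro i
        have h2 : (QuotientGroup.mk ((D a).left i) :
            OutG G) = 1 := (hcl a i j₀).trans ha
        exact (QuotientGroup.eq_one_iff _).1 h2
      choose g hg using h1
      let w : Wr G n := ⟨g, (D a).right⟩
      have h3 : D (MulAut.conj w) = D a := by
        rw [hDc]
        refine wr_ext (fun i => ?_) rfl
        exact hg i
      have h4 : Rel (a * (MulAut.conj w)⁻¹) 1 := by
        have h5 := hD (a * (MulAut.conj w)⁻¹)
        rwa [map_mul, map_inv, h3, mul_inv_cancel] at h5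
      have h6 := rel_one hZ _ h4
      exact ⟨w, mul_inv_eq_one.1 h6⟩
    · rintro ⟨w, rfl⟩
      change QuotientGroup.mk ((D (MulAut.conj w)).left j₀) = _
      rw [hDc]
      exact (QuotientGroup.eq_one_iff _).2 ⟨_, rfl⟩

theorem center_wr [Nontrivial G] (hZ : ∀ z : G, (∀ g : G, z * g = g * z) → z = 1) :
    Subgroup.center (Wr G n) = ⊥ := by
  rw [eq_bot_iff]
  intro z hz
  rw [Subgroup.mem_bot]
  have h2 : ∀ i g, z * sgl i g = sgl i g * z := fun i g => (Subgroup.mem_center_iff.1 hz _).symm
  obtain ⟨c, hc⟩ := exists_ne (1 : G)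
  have h3 : z.right = 1 := Equiv.ext fun i => fix_of_comm _ i c hc (h2 i c)
  refine wr_ext (fun i => ?_) h3
  apply hZ
  intro g
  have h5 := congrArg (fun x : Wr G n => x.left i) (h2 i g)
  rw [base_mul_left _ _ h3, base_mul_left _ _ (sgl_right i g), sgl_left_self] at h5
  exact h5

theorem indec_wr [Nontrivial G] (hZ : ∀ z : G, (∀ g : G, z * g = g * z) → z = 1) (hn : 2 ≤ n) :
    Indec (Wr G n) := by
  intro A B hA hB hinf hsup
  refine wr_indec hZ hn A B ?_ ?_
  · intro a ha b hb
    exact Subgroup.commute_of_normal_of_disjoint A B hA hB (disjoint_iff.2 hinf) a b ha hb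
  · intro t
    have ht : t ∈ A ⊔ B := by rw [hsup]; trivial
    obtain ⟨a, ha, b, hb, h⟩ := Subgroup.mem_sup_of_normal_right.1 ht
    exact ⟨a, ha, b, hb, h⟩

end single

end Pool.Agent.H284.AP
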