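import Pool.Agent.H284.AP.Krs
import Pool.Agent.H391R2.WrGrp

/-!
# The holomorph of a direct product of indecomposable nonabelian finite groups
-/

set_option autoImplicit false

namespace Pool.Agent.H284.AP

open Pool.Agent.H391R2 (Wr)
open Pool.Agent.H391R2

/-- The holomorph `H ⋊ Aut(H)`. -/
abbrev Hol (H : Type) [Group H] : Type := H ⋊[MonoidHom.id (MulAut H)] MulAut H

section act

variable {H : Type} [Group H]

/-- The action of the holomorph. -/
def act (w : Hol H) (x : H) : H := w.left * w.right x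

theorem act_mul (w w' : Hol H) (x : H) : act (w * w') x = act w (act w' x) := by
  simp only [act, SemidirectProduct.mul_left, SemidirectProduct.mul_right, map_mul, mul_assoc]
  rfl

theorem act_one (x : H) : act (1 : Hol H) x = x := by
  simp [act]

theorem act_inj {w w' : Hol H} (h : ∀ x, act w x = act w' x) : w = w' := by
  have h1 : w.left = w'.left := by
    have := h 1
    simpa [act] using this
  apply SemidirectProduct.ext h1
  ext x
  have h2 := h x
  simp only [act, h1] at h2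
  exact mul_left_cancel h2

theorem center_map (e : MulAut H) {z : H} (hz : z ∈ Subgroup.center H) :
    e z ∈ Subgroup.center H := by
  rw [Subgroup.mem_center_iff] at hz ⊢
  intro g
  have h := congrArg e (hz (e.symm g))
  rw [map_mul, map_mul] at h
  change e (e.symm g) * e z = e z * e (e.symm g) at h
  rwa [MulEquiv.apply_symm_apply] at h

/-- The central automorphisms: `θ x = x` modulo the centre. -/
def CentralAut (H : Type) [Group H] : Subgroup (MulAut H) where
  carrier := {θ | ∀ x, θ x * x⁻¹ ∈ Subgroup.center H}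
  one_mem' := fun x => by
    change x * x⁻¹ ∈ _
    rw [mul_inv_cancel]; exact one_mem _
  mul_mem' := by
    intro a b ha hb x
    have h := mul_mem (ha (b x)) (hb x)
    rwa [← mul_assoc, inv_mul_cancel_right] at h
  inv_mem' := by
    intro a ha x
    have h := inv_mem (ha (a⁻¹ x))
    have h1 : a (a⁻¹ x) = x := a.apply_symm_apply x
    rwa [h1, mul_inv_rev, inv_inv] at h

theorem mem_centralAut {θ : MulAut H} :
    θ ∈ CentralAut H ↔ ∀ x, θ x * x⁻¹ ∈ Subgroup.center H := Iff.rfl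

instance centralAut_normal : (CentralAut H).Normal := by
  refine ⟨fun θ hθ γ x => ?_⟩
  have h := center_map γ (hθ (γ⁻¹ x))
  have h1 : γ (γ⁻¹ x) = x := γ.apply_symm_apply x
  rw [map_mul, map_inv, h1] at h
  exact h

/-- The subgroup of the centre generated by all `θ x * x⁻¹`, `θ` a central automorphism. -/
def Z1 (H : Type) [Group H] : Subgroup H :=
  Subgroup.closure {z | ∃ θ ∈ CentralAut H, ∃ x, z = θ x * x⁻¹}

theorem Z1_le : Z1 H ≤ Subgroup.center H := by
  rw [Z1, Subgroup.closure_le]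
  rintro _ ⟨θ, hθ, x, rfl⟩
  exact hθ x

theorem mem_Z1 {θ : MulAut H} (hθ : θ ∈ CentralAut H) (x : H) : θ x * x⁻¹ ∈ Z1 H :=
  Subgroup.subset_closure ⟨θ, hθ, x, rfl⟩

theorem Z1_map (γ : MulAut H) {z : H} (hz : z ∈ Z1 H) : γ z ∈ Z1 H := by
  have h : Z1 H ≤ (Z1 H).comap γ.toMonoidHom := by
    rw [Z1, Subgroup.closure_le]
    rintro _ ⟨θ, hθ, x, rfl⟩
    change γ (θ x * x⁻¹) ∈ Z1 H
    have h1 := mem_Z1 (centralAut_normal.conj_mem θ hθ γ) (γ x)
    have h2 : (γ * θ * γ⁻¹) (γ x) = γ (θ x) := by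
      change γ (θ (γ⁻¹ (γ x))) = _
      have h3 : γ⁻¹ (γ x) = x := γ.symm_apply_apply x
      rw [h3]
    rw [h2] at h1
    rwa [map_mul, map_inv]
  exact h hz

/-- The group of all pairs of an element of `Z1 H` and a central automorphism, a normal subgroup of
the holomorph. -/
def EE (H : Type) [Group H] : Subgroup (Hol H) where
  carrier := {w | w.left ∈ Z1 H ∧ w.right ∈ CentralAut H}
  one_mem' := ⟨one_mem _, one_mem _⟩
  mul_mem' := by
    rintro a b ⟨ha, ha'⟩ ⟨hb, hb'⟩
    exact ⟨mul_mem ha (Z1_map a.right hb), mul_mem ha' hb'⟩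
  inv_mem' := by
    rintro a ⟨ha, ha'⟩
    refine ⟨?_, inv_mem ha'⟩
    exact Z1_map a.right⁻¹ (inv_mem ha)

theorem mem_EE {w : Hol H} : w ∈ EE H ↔ w.left ∈ Z1 H ∧ w.right ∈ CentralAut H := Iff.rfl

instance EE_normal : (EE H).Normal := by
  refine ⟨?_⟩
  rintro w ⟨hw, hw'⟩ g
  have h1 : (g * w * g⁻¹).right = g.right * w.right * g.right⁻¹ := rfl
  have h2 : g.right * w.right * g.right⁻¹ ∈ CentralAut H := centralAut_normal.conj_mem _ hw' _
  refine ⟨?_, h2⟩
  have h3 : (g * w * g⁻¹).left = g.left * g.right w.left *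
      (g.right * w.right * g.right⁻¹) g.left⁻¹ := rfl
  have h4 := Z1_map g.right hw
  have h5 := Subgroup.mem_center_iff.1 (Z1_le h4) g.left
  rw [h3, h5, mul_assoc, map_inv]
  refine mul_mem h4 ?_
  have h6 := inv_mem (mem_Z1 h2 g.left)
  rwa [mul_inv_rev, inv_inv] at h6

/-- The composition of two homomorphisms into the centre is trivial. -/
def CC (H : Type) [Group H] : Prop := ∀ (f g : H →* Subgroup.center H) (x : H), f (g x) = 1

theorem central_hom {a : MulAut H} (ha : a ∈ CentralAut H) :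
    ∃ f : H →* Subgroup.center H, ∀ x, (f x : H) = a x * x⁻¹ := by
  refine ⟨{ toFun := fun x => ⟨a x * x⁻¹, ha x⟩, map_one' := ?_, map_mul' := ?_ }, fun x => rfl⟩
  · apply Subtype.ext; simp
  · intro x y
    apply Subtype.ext
    change a (x * y) * (x * y)⁻¹ = a x * x⁻¹ * (a y * y⁻¹)
    rw [map_mul, mul_inv_rev]
    have h := Subgroup.mem_center_iff.1 (ha y) x⁻¹
    calc a x * a y * (y⁻¹ * x⁻¹) = a x * ((a y * y⁻¹) * x⁻¹) := by group
      _ = a x * (x⁻¹ * (a y * y⁻¹)) := by rw [h]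
      _ = a x * x⁻¹ * (a y * y⁻¹) := by rw [← mul_assoc]

theorem central_fix (hH : CC H) {a : MulAut H} (ha : a ∈ CentralAut H) {z : H} (hz : z ∈ Z1 H) :
    a z = z := by
  obtain ⟨f, hf⟩ := central_hom ha
  have h : Z1 H ≤ f.ker := by
    rw [Z1, Subgroup.closure_le]
    rintro _ ⟨θ, hθ, x, rfl⟩
    obtain ⟨g, hg⟩ := central_hom hθ
    have h1 := hH f g x
    rw [hg] at h1
    exact h1
  have h2 := congrArg Subtype.val (MonoidHom.mem_ker.1 (h hz))
  rw [hf] at h2
  exact mul_inv_eq_one.1 h2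

theorem centralAut_comm (hH : CC H) {a b : MulAut H}
    (ha : a ∈ CentralAut H) (hb : b ∈ CentralAut H) : a * b = b * a := by
  have key : ∀ {a b : MulAut H}, a ∈ CentralAut H → b ∈ CentralAut H → ∀ x,
      (a * b) x = (b x * x⁻¹) * (a x * x⁻¹ * x) := by
    intro a b ha hb x
    have h1 : a (b x * x⁻¹) = b x * x⁻¹ := central_fix hH ha (mem_Z1 hb x)
    calc (a * b) x = a (b x) := rfl
      _ = a (b x * x⁻¹ * x) := by rw [inv_mul_cancel_right]
      _ = b x * x⁻¹ * a x := by rw [map_mul, h1]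
      _ = _ := by rw [inv_mul_cancel_right (a x)]
  ext x
  have h5 := Subgroup.mem_center_iff.1 (mem_centralAut.1 ha x) (b x * x⁻¹)
  rw [key ha hb, key hb ha, ← mul_assoc (b x * x⁻¹), h5, mul_assoc (a x * x⁻¹)]

theorem EE_comm (hH : CC H) {w w' : Hol H} (hw : w ∈ EE H) (hw' : w' ∈ EE H) :
    w * w' = w' * w := by
  apply SemidirectProduct.ext
  · change w.left * w.right w'.left = w'.left * w'.right w.left
    rw [central_fix hH hw.2 hw'.1, central_fix hH hw'.2 hw.1]
    exact Subgroup.mem_center_iff.1 (Z1_le hw'.1) w.left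
  · exact centralAut_comm hH hw.2 hw'.2

end act

section iota

variable {J : Type} (R : J → Type) [∀ j, Group (R j)] (m : J → ℕ)

/-- The direct product with `m j` factors `R j`. -/
abbrev PP : Type := ∀ a : (Σ j, Fin (m j)), R a.1

variable {R m}

/-- The automorphism of the product given by automorphisms of the factors and permutations. -/
def iotaR (u : ∀ j, Wr (Hol (R j)) (m j)) : MulAut (PP R m) where
  toFun x := fun a => ((u a.1).left a.2).right (x ⟨a.1, (u a.1).right⁻¹ a.2⟩)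
  invFun x := fun a => (((u a.1).left ((u a.1).right a.2)).right).symm
    (x ⟨a.1, (u a.1).right a.2⟩)
  left_inv x := by
    funext a
    change (((u a.1).left ((u a.1).right a.2)).right).symm
      (((u a.1).left ((u a.1).right a.2)).right
        (x ⟨a.1, (u a.1).right⁻¹ ((u a.1).right a.2)⟩)) = x a
    have h : (u a.1).right⁻¹ ((u a.1).right a.2) = a.2 := by simp
    rw [MulEquiv.symm_apply_apply, h]
  right_inv x := by
    funext a
    change ((u a.1).left a.2).right
      ((((u a.1).left ((u a.1).right ((u a.1).right⁻¹ a.2))).right).symm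
        (x ⟨a.1, (u a.1).right ((u a.1).right⁻¹ a.2)⟩)) = x a
    have h : (u a.1).right ((u a.1).right⁻¹ a.2) = a.2 := by simp
    rw [h, MulEquiv.apply_symm_apply]
  map_mul' x y := by
    funext a
    simp only [Pi.mul_apply, map_mul]

/-- The homomorphism from the product of wreath products to the holomorph. -/
def iotaF (u : ∀ j, Wr (Hol (R j)) (m j)) : Hol (PP R m) :=
  ⟨fun a => ((u a.1).left a.2).left, iotaR u⟩

theorem act_iotaF (u : ∀ j, Wr (Hol (R j)) (m j)) (x : PP R m) (a : Σ j, Fin (m j)) :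
    act (iotaF u) x a = act ((u a.1).left a.2) (x ⟨a.1, (u a.1).right⁻¹ a.2⟩) := rfl

/-- The homomorphism from the product of wreath products to the holomorph. -/
def iota : (∀ j, Wr (Hol (R j)) (m j)) →* Hol (PP R m) where
  toFun := iotaF
  map_one' := by
    apply act_inj
    intro x
    funext a
    rw [act_iotaF, act_one]
    change act 1 (x ⟨a.1, (1 : Equiv.Perm (Fin (m a.1)))⁻¹ a.2⟩) = x a
    have h : (1 : Equiv.Perm (Fin (m a.1)))⁻¹ a.2 = a.2 := by simp
    rw [act_one, h]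
  map_mul' u v := by
    apply act_inj
    intro x
    funext a
    rw [act_mul, act_iotaF, act_iotaF, act_iotaF]
    change act (((u a.1) * (v a.1)).left a.2) (x ⟨a.1, ((u a.1) * (v a.1)).right⁻¹ a.2⟩) = _
    rw [wr_mul_left, act_mul, wr_mul_right, mul_inv_rev]
    rfl

theorem cover [Finite J] [∀ j, Finite (R j)] [∀ j, Nontrivial (R j)] (hI : ∀ j, Indec (R j))
    (hne : ∀ j j', Nonempty (R j ≃* R j') → j = j')
    (w : Hol (PP R m)) : ∃ u, w * (iota u)⁻¹ ∈ EE (PP R m) := by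
  classical
  obtain ⟨s, hs, e, he⟩ := krs (fun a : (Σ j, Fin (m j)) => R a.1) (fun a => hI a.1) w.right
  have h1 : ∀ (j : J) (i : Fin (m j)), ∃ (k : Fin (m j)) (α : MulAut (R j)),
      s ⟨j, i⟩ = ⟨j, k⟩ ∧ ∀ x : PP R m, e ⟨j, i⟩ (x (s ⟨j, i⟩)) = α (x ⟨j, k⟩) := by
    intro j i
    have h2 : ∀ (a' : Σ j, Fin (m j)) (f : R a'.1 ≃* R j), ∃ (k : Fin (m j)) (α : MulAut (R j)),
        a' = ⟨j, k⟩ ∧ ∀ x : PP R m, f (x a') = α (x ⟨j, k⟩) := by
      rintro ⟨j', k'⟩ f
      have h3 : j' = j := hne j' j ⟨f⟩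
      subst h3
      exact ⟨k', f, rfl, fun x => rfl⟩
    exact h2 _ (e ⟨j, i⟩)
  choose k α hk hα using h1
  have hkinj : ∀ j, (∃ x y : R j, x * y ≠ y * x) → Function.Injective (k j) := by
    intro j hj i i' hii
    have h2 : s ⟨j, i⟩ = s ⟨j, i'⟩ := by rw [hk, hk, hii]
    have h4 : ∃ x y : R (s ⟨j, i'⟩).1, x * y ≠ y * x := by
      rw [hk]
      exact hj
    have h3 := hs ⟨j, i⟩ ⟨j, i'⟩ h4 h2
    simpa using h3
  -- the permutations
  have hπ : ∀ j, ∃ π : Equiv.Perm (Fin (m j)), (∃ x y : R j, x * y ≠ y * x) →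
      ∀ i, π i = k j i := by
    intro j
    by_cases hj : ∃ x y : R j, x * y ≠ y * x
    · exact ⟨Equiv.ofBijective (k j) (Finite.injective_iff_bijective.1 (hkinj j hj)),
        fun _ i => rfl⟩
    · exact ⟨1, fun h => absurd h hj⟩
  choose π hπ using hπ
  let v : PP R m → ∀ j, Wr (Hol (R j)) (m j) := fun l j =>
    ⟨fun i => ⟨l ⟨j, i⟩, α j i⟩, (π j)⁻¹⟩
  let b : MulAut (PP R m) := iotaR (v 1)
  let θ : MulAut (PP R m) := w.right * b⁻¹
  have hθ : θ ∈ CentralAut (PP R m) := by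
    intro x
    obtain ⟨y, rfl⟩ := b.surjective x
    have h0 : θ (b y) = w.right y := by
      change w.right (b⁻¹ (b y)) = _
      have : b⁻¹ (b y) = y := b.symm_apply_apply y
      rw [this]
    rw [h0, Subgroup.mem_center_iff]
    intro g
    funext a
    obtain ⟨j, i⟩ := a
    change g ⟨j, i⟩ * (w.right y ⟨j, i⟩ * (b y ⟨j, i⟩)⁻¹) =
      (w.right y ⟨j, i⟩ * (b y ⟨j, i⟩)⁻¹) * g ⟨j, i⟩
    by_cases hj : ∃ x y : R j, x * y ≠ y * x
    · have h5 : b y ⟨j, i⟩ = e ⟨j, i⟩ (y (s ⟨j, i⟩)) := by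
        rw [hα]
        change α j i (y ⟨j, ((π j)⁻¹)⁻¹ i⟩) = _
        rw [inv_inv, hπ j hj]
      have h6 := he y ⟨j, i⟩ (g ⟨j, i⟩)
      have h7 : w.right y ⟨j, i⟩ * (b y ⟨j, i⟩)⁻¹ =
          (e ⟨j, i⟩ (y (s ⟨j, i⟩)))⁻¹ * w.right y ⟨j, i⟩ := by
        rw [h5]
        have h8 := he y ⟨j, i⟩ (e ⟨j, i⟩ (y (s ⟨j, i⟩)))
        have h9 : w.right y ⟨j, i⟩ = e ⟨j, i⟩ (y (s ⟨j, i⟩)) *
            ((e ⟨j, i⟩ (y (s ⟨j, i⟩)))⁻¹ * w.right y ⟨j, i⟩) := by
          rw [mul_inv_cancel_left]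
        conv_lhs => rw [h9]
        rw [h8.eq, mul_inv_cancel_right]
      rw [h7]
      exact h6.eq
    · push Not at hj
      exact hj _ _
  refine ⟨v (θ⁻¹ w.left), ?_⟩
  have h10 : w = SemidirectProduct.inr θ * iota (v (θ⁻¹ w.left)) := by
    apply SemidirectProduct.ext
    · change w.left = 1 * θ (θ⁻¹ w.left)
      have : θ (θ⁻¹ w.left) = w.left := θ.apply_symm_apply _
      rw [this, one_mul]
    · change w.right = θ * b
      change w.right = w.right * b⁻¹ * b
      rw [inv_mul_cancel_right]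
  have h11 : w * (iota (v (θ⁻¹ w.left)))⁻¹ = SemidirectProduct.inr θ := mul_inv_eq_of_eq_mul h10
  rw [h11]
  exact ⟨one_mem _, hθ⟩

end iota

end Pool.Agent.H284.AP
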