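import Mathlib

/-!
# Automorphisms of direct products of indecomposable finite groups
-/

set_option autoImplicit false

namespace Pool.Agent.H284.AP

/-- `P` is not the direct product of two nontrivial subgroups. -/
def Indec (P : Type) [Group P] : Prop :=
  ∀ A B : Subgroup P, A.Normal → B.Normal → A ⊓ B = ⊥ → A ⊔ B = ⊤ → A = ⊥ ∨ B = ⊥

/-- Fitting's lemma for an endomorphism that commutes with the inner automorphisms. -/
theorem fitting {P : Type} [Group P] [Finite P] (hP : Indec P) (ρ : P →* P)
    (hρ : ∀ g x, ρ (g * x * g⁻¹) = g * ρ x * g⁻¹) :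
    Function.Injective ρ ∨ ∃ k : ℕ, ∀ x, ρ^[k] x = 1 := by
  classical
  -- the powers of `ρ`
  let T : ℕ → (P →* P) := fun k => ((show Monoid.End P from ρ) ^ k : Monoid.End P)
  have hT : ∀ k x, T k x = ρ^[k] x := fun k x => by
    change ((show Monoid.End P from ρ) ^ k : Monoid.End P) x = _
    rw [Monoid.End.coe_pow]
    rfl
  have hTn : ∀ k g x, T k (g * x * g⁻¹) = g * T k x * g⁻¹ := by
    intro k
    induction k with
    | zero => intro g x; rw [hT, hT]; rfl
    | succ k ih =>
      intro g x
      rw [hT, hT, Function.iterate_succ_apply, Function.iterate_succ_apply, hρ, ← hT, ih, hT]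
  obtain ⟨k, hk⟩ := Nat.sInf_mem (Set.range_nonempty (fun k : ℕ => Nat.card (T k).range))
  have hmin : ∀ m, Nat.card (T k).range ≤ Nat.card (T m).range := by
    intro m
    change (fun k : ℕ => Nat.card (T k).range) k ≤ _
    rw [hk]
    exact Nat.sInf_le ⟨m, rfl⟩
  have hTT : ∀ x, T (k + k) x = T k (T k x) := by
    intro x
    rw [hT, hT, hT, Function.iterate_add_apply]
  have hle : (T (k + k)).range ≤ (T k).range := by
    rintro _ ⟨x, rfl⟩
    exact ⟨T k x, (hTT x).symm⟩
  have heq : (T (k + k)).range = (T k).range := Subgroup.eq_of_le_of_card_ge hle (hmin _)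
  have hsurj : ∀ y ∈ (T k).range, ∃ z ∈ (T k).range, T k z = y := by
    intro y hy
    rw [← heq] at hy
    obtain ⟨x, rfl⟩ := hy
    exact ⟨T k x, ⟨x, rfl⟩, (hTT x).symm⟩
  have hinj : ∀ y ∈ (T k).range, T k y = 1 → y = 1 := by
    let f : (T k).range → (T k).range := fun y => ⟨T k y.1, ⟨y.1, rfl⟩⟩
    have hf : Function.Surjective f := by
      rintro ⟨y, hy⟩
      obtain ⟨z, hz, hzy⟩ := hsurj y hy
      exact ⟨⟨z, hz⟩, Subtype.ext hzy⟩
    have hf' : Function.Injective f := Finite.injective_iff_surjective.2 hf
    intro y hy h1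
    have : f ⟨y, hy⟩ = f ⟨1, one_mem _⟩ := Subtype.ext (by change T k y = T k 1; rw [h1, map_one])
    exact congrArg Subtype.val (hf' this)
  have hBn : (T k).range.Normal := by
    refine ⟨?_⟩
    rintro _ ⟨x, rfl⟩ g
    exact ⟨g * x * g⁻¹, hTn k g x⟩
  have hinf : (T k).ker ⊓ (T k).range = ⊥ := by
    rw [eq_bot_iff]
    rintro y ⟨h1, h2⟩
    exact hinj y h2 h1
  have hsup : (T k).ker ⊔ (T k).range = ⊤ := by
    rw [eq_top_iff]
    intro x _
    obtain ⟨z, hz, hzx⟩ := hsurj (T k x) ⟨x, rfl⟩
    have h1 : x * z⁻¹ ∈ (T k).ker := by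
      rw [MonoidHom.mem_ker, map_mul, map_inv, hzx, mul_inv_cancel]
    have h2 := Subgroup.mul_mem_sup h1 hz
    rwa [inv_mul_cancel_right] at h2
  rcases hP _ _ (MonoidHom.normal_ker (T k)) hBn hinf hsup with h | h
  · left
    have hTi : Function.Injective (T k) := (MonoidHom.ker_eq_bot_iff _).1 h
    rcases Nat.eq_zero_or_pos k with h0 | h0
    · subst h0
      have h1 := hmin 1
      have h2 : (T 0).range = ⊤ := by
        rw [eq_top_iff]
        intro x _
        exact ⟨x, by rw [hT]; rfl⟩
      rw [h2] at h1
      have h3 : (T 1).range = ⊤ := Subgroup.eq_of_le_of_card_ge le_top h1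
      have h4 : Function.Surjective ρ := by
        intro y
        have : y ∈ (T 1).range := by rw [h3]; trivial
        obtain ⟨x, hx⟩ := this
        exact ⟨x, by rw [hT] at hx; exact hx⟩
      exact Finite.injective_iff_surjective.2 h4
    · obtain ⟨m, rfl⟩ : ∃ m, k = m + 1 := ⟨k - 1, by omega⟩
      intro x y hxy
      apply hTi
      rw [hT, hT, Function.iterate_succ_apply, Function.iterate_succ_apply, hxy]
  · right
    refine ⟨k, fun x => ?_⟩
    have : T k x ∈ (T k).range := ⟨x, rfl⟩
    rw [h, Subgroup.mem_bot, hT] at this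
    exact this

/-- Two endomorphisms with commuting images and product the identity. -/
theorem term {P : Type} [Group P] [Finite P] (hP : Indec P) (α β : P →* P)
    (hc : ∀ x y, Commute (α x) (β y)) (h : ∀ x, α x * β x = x) :
    Function.Injective α ∨ ∃ k : ℕ, ∀ x, α^[k] x = 1 := by
  apply fitting hP
  intro g x
  have h1 : β g * α x * (β g)⁻¹ = α x := by
    rw [← (hc x g).eq, mul_inv_cancel_right]
  calc α (g * x * g⁻¹) = α g * α x * (α g)⁻¹ := by simp
    _ = α g * (β g * α x * (β g)⁻¹) * (α g)⁻¹ := by rw [h1]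
    _ = (α g * β g) * α x * (α g * β g)⁻¹ := by group
    _ = g * α x * g⁻¹ := by rw [h]

theorem two_term {P : Type} [Group P] [Finite P] (hP : Indec P) (α β : P →* P)
    (hc : ∀ x y, Commute (α x) (β y)) (h : ∀ x, α x * β x = x) :
    Function.Injective α ∨ Function.Injective β := by
  rcases term hP α β hc h with h1 | ⟨k, hk⟩
  · exact Or.inl h1
  · right
    rw [injective_iff_map_eq_one]
    intro x hx
    have h2 : α x = x := by have := h x; rwa [hx, mul_one] at this
    have h3 : α^[k] x = x := Function.iterate_fixed h2 k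
    rw [← h3, hk]

section prod

variable {A : Type} [DecidableEq A] {P : A → Type} [∀ a, Group (P a)]

/-- Restriction of a vector to a set of coordinates. -/
def res (S : Finset A) : (∀ a, P a) →* (∀ a, P a) where
  toFun y a := if a ∈ S then y a else 1
  map_one' := by funext a; simp
  map_mul' x y := by funext a; by_cases h : a ∈ S <;> simp [h]

theorem res_apply (S : Finset A) (y : ∀ a, P a) (a : A) :
    res S y a = if a ∈ S then y a else 1 := rfl

theorem res_commute {S T : Finset A} (h : Disjoint S T) (x y : ∀ a, P a) :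
    Commute (res S x) (res T y) := by
  funext a
  simp only [Pi.mul_apply, res_apply]
  by_cases h1 : a ∈ S
  · have h2 : a ∉ T := Finset.disjoint_left.1 h h1
    simp [h1, h2]
  · simp [h1]

theorem single_eq_res (b : A) (y : ∀ a, P a) : Pi.mulSingle b (y b) = res {b} y := by
  funext a
  rw [res_apply]
  by_cases h : a = b
  · subst h; simp
  · simp [h]

theorem res_insert {S : Finset A} {b : A} (hb : b ∉ S) (y : ∀ a, P a) :
    res (insert b S) y = res {b} y * res S y := by
  funext a
  simp only [Pi.mul_apply, res_apply, Finset.mem_insert, Finset.mem_singleton]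
  by_cases h : a = b
  · subst h; simp [hb]
  · simp [h]

theorem exists_single {Q : Type} [Group Q] [Finite Q] [Nontrivial Q] (hQ : Indec Q)
    (φ : (∀ a, P a) →* Q) (ψ : Q →* ∀ a, P a) (S : Finset A)
    (hS : Function.Injective (fun x => φ (res S (ψ x)))) :
    ∃ b ∈ S, Function.Injective (fun x => φ (res {b} (ψ x))) := by
  induction S using Finset.induction_on with
  | empty =>
    exfalso
    obtain ⟨x, y, hxy⟩ := exists_pair_ne Q
    apply hxy
    apply hS
    have : ∀ z : ∀ a, P a, res ∅ z = 1 := fun z => by funext a; simp [res_apply]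
    simp only [this]
  | insert b S hb ih =>
    let θ : Q →* Q := φ.comp ((res (insert b S)).comp ψ)
    have hθ : Function.Bijective θ := Finite.injective_iff_bijective.1 hS
    let e : Q ≃* Q := MulEquiv.ofBijective θ hθ
    let α : Q →* Q := e.symm.toMonoidHom.comp (φ.comp ((res {b}).comp ψ))
    let β : Q →* Q := e.symm.toMonoidHom.comp (φ.comp ((res S).comp ψ))
    have hdis : Disjoint ({b} : Finset A) S := by simpa using hb
    have h1 : ∀ x y, Commute (α x) (β y) := by
      intro x y
      exact ((res_commute hdis (ψ x) (ψ y)).map φ).map e.symm.toMonoidHom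
    have h2 : ∀ x, α x * β x = x := by
      intro x
      change e.symm (φ (res {b} (ψ x))) * e.symm (φ (res S (ψ x))) = x
      rw [← map_mul, ← map_mul, ← res_insert hb]
      exact e.symm_apply_apply x
    rcases two_term hQ α β h1 h2 with h | h
    · exact ⟨b, Finset.mem_insert_self _ _, fun x y hxy => h (congrArg e.symm hxy)⟩
    · obtain ⟨c, hc, h3⟩ := ih (fun x y hxy => h (congrArg e.symm hxy))
      exact ⟨c, Finset.mem_insert_of_mem hc, h3⟩

end prod

/-- The nonabelian factors of a direct product of indecomposable finite groups are permuted by every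
automorphism, up to central elements. -/
theorem krs {A : Type} [Finite A] (P : A → Type) [∀ a, Group (P a)] [∀ a, Finite (P a)]
    [∀ a, Nontrivial (P a)] (hI : ∀ a, Indec (P a)) (φ : (∀ a, P a) ≃* (∀ a, P a)) :
    ∃ s : A → A, (∀ a a', (∃ x y : P (s a'), x * y ≠ y * x) → s a = s a' → a = a') ∧
      ∃ e : ∀ a, P (s a) ≃* P a,
      ∀ (x : ∀ a, P a) (a : A) (g : P a), Commute g ((e a (x (s a)))⁻¹ * φ x a) := by
  classical
  have := Fintype.ofFinite A
  let c : ∀ a b, P b →* P a := fun a b =>
    (Pi.evalMonoidHom P a).comp (φ.toMonoidHom.comp (MonoidHom.mulSingle P b))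
  let d : ∀ a b, P a →* P b := fun a b =>
    (Pi.evalMonoidHom P b).comp (φ.symm.toMonoidHom.comp (MonoidHom.mulSingle P a))
  have key : ∀ a, ∃ b, Function.Bijective (c a b) ∧ Function.Surjective (d a b) := by
    intro a
    have hinj : Function.Injective (fun x : P a => ((Pi.evalMonoidHom P a).comp φ.toMonoidHom)
        (res Finset.univ ((φ.symm.toMonoidHom.comp (MonoidHom.mulSingle P a)) x))) := by
      intro x y hxy
      have hu : ∀ z : ∀ a, P a, res Finset.univ z = z := fun z => by funext b; simp [res_apply]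
      simp only [hu] at hxy
      change φ (φ.symm (Pi.mulSingle a x)) a = φ (φ.symm (Pi.mulSingle a y)) a at hxy
      rw [φ.apply_symm_apply, φ.apply_symm_apply] at hxy
      simpa using hxy
    obtain ⟨b, -, hb⟩ := exists_single (hI a) _ _ Finset.univ hinj
    have hcd : ∀ x : P a, ((Pi.evalMonoidHom P a).comp φ.toMonoidHom)
        (res {b} ((φ.symm.toMonoidHom.comp (MonoidHom.mulSingle P a)) x)) = c a b (d a b x) := by
      intro x
      rw [← single_eq_res]
      rfl
    have hb' : Function.Injective (fun x => c a b (d a b x)) := by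
      intro x y hxy
      apply hb
      exact (hcd x).trans (Eq.trans hxy (hcd y).symm)
    have hbij : Function.Bijective (fun x => c a b (d a b x)) :=
      Finite.injective_iff_bijective.1 hb'
    have hcs : Function.Surjective (c a b) := fun y => by
      obtain ⟨x, hx⟩ := hbij.2 y
      exact ⟨_, hx⟩
    -- the endomorphism of `P b`
    let σ : P b →* P b := (d a b).comp (c a b)
    let τ : P b →* P b := (Pi.evalMonoidHom P b).comp (φ.symm.toMonoidHom.comp
      ((res (Finset.univ.erase a)).comp (φ.toMonoidHom.comp (MonoidHom.mulSingle P b))))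
    have hσ : ∀ x, σ x = (φ.symm (res {a} (φ (Pi.mulSingle b x)))) b := by
      intro x
      change (φ.symm (Pi.mulSingle a ((φ (Pi.mulSingle b x)) a))) b = _
      rw [single_eq_res]
    have hτ : ∀ x, τ x = (φ.symm (res (Finset.univ.erase a) (φ (Pi.mulSingle b x)))) b :=
      fun x => rfl
    have h1 : ∀ x y, Commute (σ x) (τ y) := by
      intro x y
      rw [hσ, hτ]
      have h2 : Disjoint ({a} : Finset A) (Finset.univ.erase a) := by simp
      exact ((res_commute h2 (φ (Pi.mulSingle b x)) (φ (Pi.mulSingle b y))).map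
        φ.symm.toMonoidHom).map (Pi.evalMonoidHom P b)
    have h2 : ∀ x, σ x * τ x = x := by
      intro x
      rw [hσ, hτ]
      change (φ.symm (res {a} (φ (Pi.mulSingle b x))) *
        φ.symm (res (Finset.univ.erase a) (φ (Pi.mulSingle b x)))) b = x
      rw [← map_mul, ← res_insert (by simp), Finset.insert_erase (Finset.mem_univ a)]
      have hu : ∀ z : ∀ a, P a, res Finset.univ z = z := fun z => by funext b; simp [res_apply]
      rw [hu, φ.symm_apply_apply]
      simp
    have hσi : Function.Injective σ := by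
      rcases term (hI b) σ τ h1 h2 with h | ⟨k, hk⟩
      · exact h
      · exfalso
        have hsc : Function.Semiconj (c a b) σ (fun x => c a b (d a b x)) := fun x => rfl
        have h3 : ∀ x, (fun x => c a b (d a b x))^[k] (c a b (d a b x)) = 1 := by
          intro x
          rw [← (hsc.iterate_right k) (d a b x), hk, map_one]
        have h4 : ∀ x y : P a, x = y := by
          intro x y
          apply hb'
          apply (hb'.iterate k)
          exact (h3 x).trans (h3 y).symm
        obtain ⟨x, y, hxy⟩ := exists_pair_ne (P a)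
        exact hxy (h4 _ _)
    have hci : Function.Injective (c a b) := fun x y hxy => hσi (congrArg (d a b) hxy)
    refine ⟨b, ⟨hci, hcs⟩, ?_⟩
    intro y
    obtain ⟨x, hx⟩ := hbij.2 (c a b y)
    exact ⟨x, hci hx⟩
  choose s hs hs' using key
  refine ⟨s, ?_, fun a => MulEquiv.ofBijective (c a (s a)) (hs a), ?_⟩
  · have h : ∀ a a' b, (∃ x y : P b, x * y ≠ y * x) → a ≠ a' → Function.Surjective (d a b) →
        Function.Surjective (d a' b) → False := by
      intro a a' b hnb hne h1 h2
      obtain ⟨x, y, hxy⟩ := hnb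
      obtain ⟨u, rfl⟩ := h1 x
      obtain ⟨v, rfl⟩ := h2 y
      apply hxy
      exact ((Pi.mulSingle_commute (f := P) hne u v).map φ.symm.toMonoidHom).map
        (Pi.evalMonoidHom P b)
    intro a a' hnb haa
    by_contra hne
    exact h a a' (s a') hnb hne (haa ▸ hs' a) (hs' a')
  · intro x a g
    obtain ⟨y, rfl⟩ := (hs a).2 g
    have h1 : φ x a = c a (s a) (x (s a)) * φ (res (Finset.univ.erase (s a)) x) a := by
      have hu : ∀ z : ∀ a, P a, res Finset.univ z = z := fun z => by funext b; simp [res_apply]
      have h2 : x = res {s a} x * res (Finset.univ.erase (s a)) x := by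
        rw [← res_insert (by simp), Finset.insert_erase (Finset.mem_univ _), hu]
      conv_lhs => rw [h2, map_mul, ← single_eq_res]
      rfl
    rw [h1]
    change Commute _ ((c a (s a) (x (s a)))⁻¹ * _)
    rw [inv_mul_cancel_left]
    have h3 : Disjoint ({s a} : Finset A) (Finset.univ.erase (s a)) := by simp
    have h4 : c a (s a) y = φ (res {s a} (Pi.mulSingle (s a) y)) a := by
      rw [← single_eq_res, Pi.mulSingle_eq_same]
      rfl
    rw [h4]
    exact ((res_commute h3 (Pi.mulSingle (s a) y) x).map φ.toMonoidHom).map (Pi.evalMonoidHom P a)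

end Pool.Agent.H284.AP
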