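import Pool.Agent.H284.AP.Spl
import Pool.Agent.TH444.ML.WrG

/-!
# Subgroups of small index with trivial core
-/

set_option autoImplicit false

namespace Pool.Agent.H284.AP

open Pool.Agent.H391R2 (Wr)
open Pool.Agent.H391R2
open Pool.Agent.TH444.TW

/-- `p : X → Γ` satisfies the conditions of `WreathStep`, with at least one factor and
`|Γ| ≤ ∏ (n i)!`. -/
def BigStep {X Γ : Type} [Group X] [Group Γ] (p : X →* Γ) : Prop :=
  Function.Surjective p ∧
  ∃ (I : Type) (_ : Fintype I) (G : I → Type) (_ : ∀ i, Group (G i)) (_ : ∀ i, Finite (G i))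
    (n : I → ℕ) (e : p.ker ≃* (∀ i, Wr (G i) (n i))),
    (∀ i, Nontrivial (G i) ∧ Subgroup.center (G i) = ⊥ ∧
      ((3 * Nat.card (G i) + 2).factorial) ^ 3 ≤ n i ∧
      (InnerSplit (G i) ∨ Nat.Coprime (Nat.card (G i)) (locIndex (Factor e i)))) ∧
    Nonempty I ∧ Nat.card Γ ≤ ∏ i, (n i).factorial

theorem BigStep.wreathStep {X Γ : Type} [Group X] [Group Γ] {p : X →* Γ} (h : BigStep p) :
    WreathStep p := by
  obtain ⟨hp, I, i1, G, i2, i3, n, e, h, -, -⟩ := h
  exact ⟨hp, I, inferInstance, G, i2, i3, n, e, h⟩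

theorem two_pow_bound (n : ℕ) (hn : 14 ≤ n) : 64 * n ^ 2 ≤ 2 ^ n := by
  induction n, hn using Nat.le_induction with
  | base => norm_num
  | succ n hn ih =>
    have h : 64 * (n + 1) ^ 2 ≤ 2 * (64 * n ^ 2) := by nlinarith
    calc 64 * (n + 1) ^ 2 ≤ 2 * 2 ^ n := h.trans (Nat.mul_le_mul_left _ ih)
      _ = 2 ^ (n + 1) := by ring

theorem pow_bound (g n : ℕ) (hg : 2 ≤ g) (hn : 14 ≤ n) : 16 * (g * n) ^ 2 ≤ g ^ n := by
  have h1 := two_pow_bound n hn
  obtain ⟨m, rfl⟩ : ∃ m, n = m + 2 := ⟨n - 2, by omega⟩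
  have h2 : (2 : ℕ) ^ (m + 2) = 4 * 2 ^ m := by ring
  have h3 : 16 * (m + 2) ^ 2 ≤ 2 ^ m := by omega
  have h4 : 2 ^ m ≤ g ^ m := Nat.pow_le_pow_left hg m
  calc 16 * (g * (m + 2)) ^ 2 = (16 * (m + 2) ^ 2) * g ^ 2 := by ring
    _ ≤ g ^ m * g ^ 2 := Nat.mul_le_mul_right _ (h3.trans h4)
    _ = g ^ (m + 2) := by ring

theorem exists_core {X Γ : Type} [Group X] [Group Γ] [Finite X] {p : X →* Γ} (h : BigStep p) :
    ∃ U : Subgroup X, U.normalCore = ⊥ ∧ 8 * U.index * (U.index + 1) ≤ Nat.card X := by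
  classical
  obtain ⟨hp, I, i1, G, i2, i3, n, e, h, hI, hΓ⟩ := h
  have hfΓ : Finite Γ := Finite.of_surjective p hp
  have i4 : ∀ i, Nontrivial (G i) := fun i => (h i).1
  have hg : ∀ i, 2 ≤ Nat.card (G i) := fun i => Finite.one_lt_card
  have hn : ∀ i, 14 ≤ n i := by
    intro i
    refine le_trans ?_ (h i).2.2.1
    have h1 : (8 : ℕ).factorial ≤ (3 * Nat.card (G i) + 2).factorial :=
      Nat.factorial_le (by have := hg i; omega)
    have h2 : (8 : ℕ).factorial = 40320 := by decide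
    have h3 : (3 * Nat.card (G i) + 2).factorial ≤ ((3 * Nat.card (G i) + 2).factorial) ^ 3 :=
      Nat.le_self_pow (by norm_num) _
    omega
  choose V hV1 hV2 using fun i => Pool.Agent.TH444.ML.wr_core (G i) (n i)
    (by have := hn i; omega)
  let V₀ : Subgroup (∀ i, Wr (G i) (n i)) := Subgroup.pi Set.univ V
  have hV₀ : V₀.index ≤ ∏ i, (Nat.card (G i) * n i) := by
    have hfin : ∀ i, Finite (Wr (G i) (n i) ⧸ V i) := fun i => by
      have : Finite (Wr (G i) (n i)) := Finite.of_equiv _ SemidirectProduct.equivProd.symm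
      exact Quotient.finite _
    have h1 : Nat.card ((∀ i, Wr (G i) (n i)) ⧸ V₀) ≤ Nat.card (∀ i, Wr (G i) (n i) ⧸ V i) := by
      refine Nat.card_le_card_of_injective (fun q i => QuotientGroup.mk (q.out i)) ?_
      intro q q' hqq
      rw [← QuotientGroup.out_eq' q, ← QuotientGroup.out_eq' q', QuotientGroup.eq]
      intro i _
      exact QuotientGroup.eq.1 (congrFun hqq i)
    rw [Nat.card_pi] at h1
    calc V₀.index ≤ ∏ i, (V i).index := h1
      _ = ∏ i, (Nat.card (G i) * n i) := Finset.prod_congr rfl fun i _ => hV2 i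
  let U : Subgroup X := (V₀.comap e.toMonoidHom).map p.ker.subtype
  have hUi : U.index = V₀.index * Nat.card Γ := by
    rw [Subgroup.index_map_subtype, Subgroup.index_comap_of_surjective _ e.surjective,
      Subgroup.index_ker, MonoidHom.range_eq_top.2 hp, Subgroup.card_top]
  refine ⟨U, ?_, ?_⟩
  · rw [eq_bot_iff]
    intro x hx
    rw [Subgroup.mem_bot]
    obtain ⟨v, hv, rfl⟩ := Subgroup.normalCore_le U hx
    have h1 : e v = 1 := by
      funext i
      have h2 : e v i ∈ (V i).normalCore := by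
        intro b
        obtain ⟨w, hw, hw'⟩ := hx (e.symm (Pi.mulSingle i b) : X)
        have h3 : w = e.symm (Pi.mulSingle i b) * v * (e.symm (Pi.mulSingle i b))⁻¹ :=
          Subtype.ext hw'
        have h4 : e w i ∈ V i := hw i trivial
        rw [h3, map_mul, map_mul, map_inv, MulEquiv.apply_symm_apply, Pi.mul_apply, Pi.mul_apply,
          Pi.inv_apply, Pi.mulSingle_eq_same] at h4
        exact h4
      rw [hV1, Subgroup.mem_bot] at h2
      exact h2
    have h2 : v = 1 := (map_eq_one_iff e e.injective).1 h1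
    rw [h2]
    rfl
  · have hX : Nat.card X = (∏ i, (Nat.card (G i) ^ n i * (n i).factorial)) * Nat.card Γ := by
      rw [← Subgroup.card_mul_index p.ker, Subgroup.index_ker, MonoidHom.range_eq_top.2 hp,
        Subgroup.card_top, Nat.card_congr e.toEquiv, Nat.card_pi]
      congr 1
      exact Finset.prod_congr rfl fun i _ => card_wr (G i) (n i)
    have hu1 : 1 ≤ U.index := Nat.one_le_iff_ne_zero.2 Subgroup.index_ne_zero_of_finite
    have hA : 16 * (∏ i, (Nat.card (G i) * n i)) ^ 2 ≤ ∏ i, Nat.card (G i) ^ n i := by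
      calc 16 * (∏ i, (Nat.card (G i) * n i)) ^ 2
          ≤ (∏ _i : I, 16) * (∏ i, (Nat.card (G i) * n i)) ^ 2 := by
            refine Nat.mul_le_mul_right _ ?_
            rw [Finset.prod_const, Finset.card_univ]
            exact Nat.le_self_pow Fintype.card_ne_zero 16
        _ = ∏ i, (16 * (Nat.card (G i) * n i) ^ 2) := by
            rw [← Finset.prod_pow, Finset.prod_mul_distrib]
        _ ≤ ∏ i, Nat.card (G i) ^ n i :=
            Finset.prod_le_prod' fun i _ => pow_bound _ _ (hg i) (hn i)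
    rw [hX, Finset.prod_mul_distrib]
    have hB : U.index ≤ (∏ i, (Nat.card (G i) * n i)) * Nat.card Γ := by
      rw [hUi]
      exact Nat.mul_le_mul_right _ hV₀
    calc 8 * U.index * (U.index + 1) ≤ 16 * U.index ^ 2 := by nlinarith
      _ ≤ 16 * ((∏ i, (Nat.card (G i) * n i)) * Nat.card Γ) ^ 2 :=
          Nat.mul_le_mul_left _ (Nat.pow_le_pow_left hB 2)
      _ = (16 * (∏ i, (Nat.card (G i) * n i)) ^ 2) * Nat.card Γ * Nat.card Γ := by ring
      _ ≤ (∏ i, Nat.card (G i) ^ n i) * (∏ i, (n i).factorial) * Nat.card Γ := by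
          exact Nat.mul_le_mul_right _ (Nat.mul_le_mul hA hΓ)

end Pool.Agent.H284.AP
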