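import Pool.Agent.H284.AP.Seq

/-!
# The holomorph of a large direct power: the point stabilizer has small index
-/

set_option autoImplicit false

namespace Pool.Agent.H284.AP

theorem fac_pow_bound (g n : ℕ) (hg : 2 ≤ g) (hn : bd g ≤ n) : 16 * g ^ n ≤ n.factorial := by
  have h1 : 16 * g ^ (2 * g) + 2 * g ≤ n := by
    refine le_trans ?_ hn
    unfold bd
    have h2 : g ≤ g * g.factorial := Nat.le_mul_of_pos_right g (Nat.factorial_pos g)
    have h3 : (3 * g).factorial ≤ (3 * (g * g.factorial) + 2).factorial :=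
      Nat.factorial_le (by omega)
    have h4 : g ^ g ≤ (3 * g).factorial := by
      have h5 : g.factorial * (g + 1) ^ g ≤ (g + g).factorial :=
        Nat.factorial_mul_pow_le_factorial
      have h6 : (g + g).factorial ≤ (3 * g).factorial := Nat.factorial_le (by omega)
      have h7 : g ^ g ≤ (g + 1) ^ g := Nat.pow_le_pow_left (by omega) g
      have h8 : (g + 1) ^ g ≤ g.factorial * (g + 1) ^ g :=
        Nat.le_mul_of_pos_left _ (Nat.factorial_pos g)
      omega
    have h9 : 18 ≤ (3 * (g * g.factorial) + 2).factorial := by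
      have h10 : (8 : ℕ).factorial ≤ (3 * (g * g.factorial) + 2).factorial :=
        Nat.factorial_le (by omega)
      have h11 : (8 : ℕ).factorial = 40320 := by decide
      omega
    have h12 : g ≤ g ^ (2 * g) := Nat.le_self_pow (by omega) g
    have h13 : g ^ (2 * g) ≤ ((3 * (g * g.factorial) + 2).factorial) ^ 2 := by
      calc g ^ (2 * g) = (g ^ g) ^ 2 := by rw [← pow_mul, mul_comm]
        _ ≤ _ := Nat.pow_le_pow_left (h4.trans h3) 2
    calc 16 * g ^ (2 * g) + 2 * g ≤ 18 * g ^ (2 * g) := by omega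
      _ ≤ (3 * (g * g.factorial) + 2).factorial * ((3 * (g * g.factorial) + 2).factorial) ^ 2 :=
          Nat.mul_le_mul h9 h13
      _ = _ := by ring
  obtain ⟨k, rfl⟩ : ∃ k, n = 2 * g + k := ⟨n - 2 * g, by omega⟩
  have h2 : (2 * g).factorial * (2 * g + 1) ^ k ≤ (2 * g + k).factorial :=
    Nat.factorial_mul_pow_le_factorial
  have h3 : 16 * g ^ (2 * g) ≤ 2 ^ k := by
    have h4 : k < 2 ^ k := Nat.lt_two_pow_self
    omega
  calc 16 * g ^ (2 * g + k) = (16 * g ^ (2 * g)) * g ^ k := by ring
    _ ≤ 2 ^ k * g ^ k := Nat.mul_le_mul_right _ h3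
    _ = (2 * g) ^ k := (Nat.mul_pow 2 g k).symm
    _ ≤ (2 * g + 1) ^ k := Nat.pow_le_pow_left (by omega) k
    _ ≤ (2 * g).factorial * (2 * g + 1) ^ k :=
        Nat.le_mul_of_pos_left _ (Nat.factorial_pos _)
    _ ≤ _ := h2

/-- Permutations of the factors of the powers. -/
def permAut {I : Type} (G : I → Type) [∀ i, Group (G i)] (n : I → ℕ)
    (π : ∀ i, Equiv.Perm (Fin (n i))) : MulAut (∀ i, Fin (n i) → G i) where
  toFun x i k := x i (π i k)
  invFun x i k := x i ((π i).symm k)
  left_inv x := by
    funext i k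
    change x i (π i ((π i).symm k)) = x i k
    rw [Equiv.apply_symm_apply]
  right_inv x := by
    funext i k
    change x i ((π i).symm (π i k)) = x i k
    rw [Equiv.symm_apply_apply]
  map_mul' x y := rfl

theorem card_aut_bound {I : Type} [Finite I] (G : I → Type) [∀ i, Group (G i)]
    [∀ i, Finite (G i)] (n : I → ℕ) (hn : ∀ i, bd (Nat.card (G i)) ≤ n i)
    (hne : ∃ i, Nontrivial (G i)) :
    16 * Nat.card (∀ i, Fin (n i) → G i) ≤ Nat.card (MulAut (∀ i, Fin (n i) → G i)) := by
  classical
  have := Fintype.ofFinite I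
  let ext : (∀ i : {i // Nontrivial (G i)}, Equiv.Perm (Fin (n i))) →
      (∀ i, Equiv.Perm (Fin (n i))) := fun π i => if h : Nontrivial (G i) then π ⟨i, h⟩ else 1
  have hfin : Finite (MulAut (∀ i, Fin (n i) → G i)) :=
    Finite.of_injective (fun e : MulAut (∀ i, Fin (n i) → G i) =>
      (e : (∀ i, Fin (n i) → G i) → (∀ i, Fin (n i) → G i)))
      (fun e e' h => MulEquiv.ext (congrFun h))
  have h1 : Nat.card (∀ i : {i // Nontrivial (G i)}, Equiv.Perm (Fin (n i))) ≤
      Nat.card (MulAut (∀ i, Fin (n i) → G i)) := by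
    refine Nat.card_le_card_of_injective (fun π => permAut G n (ext π)) ?_
    intro π π' h
    funext ⟨i, hi⟩
    have h2 : ∀ (x : ∀ i, Fin (n i) → G i) k, x i (π ⟨i, hi⟩ k) = x i (π' ⟨i, hi⟩ k) := by
      intro x k
      have h3 : permAut G n (ext π) x i k = permAut G n (ext π') x i k := by
        have h4 : permAut G n (ext π) = permAut G n (ext π') := h
        rw [h4]
      change x i (ext π i k) = x i (ext π' i k) at h3
      have h5 : ∀ π₀ : (∀ i : {i // Nontrivial (G i)}, Equiv.Perm (Fin (n i))),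
          ext π₀ i = π₀ ⟨i, hi⟩ := fun π₀ => dif_pos hi
      rw [h5, h5] at h3
      exact h3
    refine Equiv.ext fun k => ?_
    by_contra hk
    obtain ⟨t, ht⟩ := exists_ne (1 : G i)
    have h3 := h2 (Pi.mulSingle i (Pi.mulSingle (π ⟨i, hi⟩ k) t)) k
    rw [Pi.mulSingle_eq_same, Pi.mulSingle_eq_same, Pi.mulSingle_eq_of_ne (Ne.symm hk)] at h3
    exact ht h3
  refine le_trans ?_ h1
  rw [Nat.card_pi, Nat.card_pi]
  have h2 : ∏ i, Nat.card (Fin (n i) → G i) =
      ∏ i : {i // Nontrivial (G i)}, Nat.card (Fin (n i) → G i) := by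
    rw [← Finset.prod_filter_mul_prod_filter_not Finset.univ (fun i => Nontrivial (G i))]
    have h3 : ∏ i ∈ Finset.univ.filter (fun i => ¬ Nontrivial (G i)),
        Nat.card (Fin (n i) → G i) = 1 := by
      refine Finset.prod_eq_one fun i hi => ?_
      have h4 : Subsingleton (G i) := not_nontrivial_iff_subsingleton.1 (Finset.mem_filter.1 hi).2
      exact Nat.card_eq_one_iff_unique.2 ⟨inferInstance, inferInstance⟩
    rw [h3, mul_one]
    exact (Finset.prod_subtype _ (fun i => by simp) _)
  rw [h2]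
  obtain ⟨i₀, hi₀⟩ := hne
  have hI : Nonempty {i // Nontrivial (G i)} := ⟨⟨i₀, hi₀⟩⟩
  calc 16 * ∏ i : {i // Nontrivial (G i)}, Nat.card (Fin (n i) → G i)
      ≤ (∏ _i : {i // Nontrivial (G i)}, 16) *
          ∏ i : {i // Nontrivial (G i)}, Nat.card (Fin (n i) → G i) := by
        refine Nat.mul_le_mul_right _ ?_
        rw [Finset.prod_const, Finset.card_univ]
        exact Nat.le_self_pow Fintype.card_ne_zero 16
    _ = ∏ i : {i // Nontrivial (G i)}, (16 * Nat.card (Fin (n i) → G i)) := by
        rw [Finset.prod_mul_distrib]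
    _ ≤ ∏ i : {i // Nontrivial (G i)}, Nat.card (Equiv.Perm (Fin (n i))) := by
        refine Finset.prod_le_prod' fun i _ => ?_
        rw [Nat.card_fun, Nat.card_perm, Nat.card_fin]
        have h5 : Nontrivial (G i) := i.2
        exact fac_pow_bound _ _ Finite.one_lt_card (hn i)

/-- The stabilizer of a point in the holomorph. -/
theorem hol_core (H : Type) [Group H] (hH : LargePower H) [Nontrivial H] :
    Finite (Hol H) ∧ ∃ U : Subgroup (Hol H), U.normalCore = ⊥ ∧
      8 * U.index * (U.index + 1) ≤ Nat.card (Hol H) := by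
  obtain ⟨I, i1, G, i2, n, hn, ⟨e⟩⟩ := hH
  have i3 : ∀ i, Finite (G i) := fun i => (hn i).1
  have hfH : Finite H := Finite.of_equiv _ e.symm.toEquiv
  have hfin : Finite (Hol H) := finite_hol H
  refine ⟨hfin, (SemidirectProduct.inr : MulAut H →* Hol H).range, ?_, ?_⟩
  · rw [eq_bot_iff]
    intro x hx
    rw [Subgroup.mem_bot]
    obtain ⟨a, rfl⟩ := Subgroup.normalCore_le _ hx
    have h1 : a = 1 := by
      refine MulEquiv.ext fun h => ?_
      obtain ⟨b, hb⟩ := hx (SemidirectProduct.inl h⁻¹)
      have h2 := congrArg (fun w : Hol H => w.left) hb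
      have h3 : (1 : H) = h⁻¹ * a h := by
        rw [← map_inv] at h2
        simpa using h2
      rw [MulAut.one_apply]
      exact (inv_mul_eq_one.1 h3.symm).symm
    rw [h1, map_one]
  · have hc : Nat.card (Hol H) = Nat.card H * Nat.card (MulAut H) := by
      rw [← Nat.card_prod]
      exact Nat.card_congr SemidirectProduct.equivProd
    have hU : Nat.card (SemidirectProduct.inr : MulAut H →* Hol H).range =
        Nat.card (MulAut H) :=
      (Nat.card_congr (MonoidHom.ofInjective
        (SemidirectProduct.inr_injective (φ := MonoidHom.id (MulAut H)))).toEquiv).symm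
    have hi : (SemidirectProduct.inr : MulAut H →* Hol H).range.index = Nat.card H := by
      have h1 := Subgroup.card_mul_index (SemidirectProduct.inr : MulAut H →* Hol H).range
      rw [hc, hU, mul_comm] at h1
      have hfA : Finite (MulAut H) := Finite.of_injective (fun e : MulAut H => (e : H → H))
        (fun e e' h => MulEquiv.ext (congrFun h))
      exact Nat.eq_of_mul_eq_mul_right Nat.card_pos h1
    have hb : 16 * Nat.card H ≤ Nat.card (MulAut H) := by
      rw [Nat.card_congr e.toEquiv, Nat.card_congr (MulAut.congr e).toEquiv]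
      refine card_aut_bound G n (fun i => (hn i).2) ?_
      by_contra hcon
      push Not at hcon
      have h2 : ∀ i, Subsingleton (G i) := hcon
      have h3 : Subsingleton H := e.injective.subsingleton
      exact not_subsingleton H h3
    rw [hi, hc]
    have h1 : 1 ≤ Nat.card H := Nat.card_pos
    calc 8 * Nat.card H * (Nat.card H + 1) ≤ Nat.card H * (16 * Nat.card H) := by nlinarith
      _ ≤ _ := Nat.mul_le_mul_left _ hb

end Pool.Agent.H284.AP
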