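import Pool.Agent.H284.AP.Sol

/-!
# Direct products of a sequence of groups; the groups attached to large direct powers
-/

set_option autoImplicit false

namespace Pool.Agent.H284.AP

open Pool.Agent.H391R2 (Wr)
open Pool.Agent.H391R2
open Pool.Agent.TH444.TW
open Pool.Agent.H391R2.T4 (RegSol HilbField)
open Pool.Agent.TH15.IGP (Lim)

/-- `H` is isomorphic to a direct product of finitely many powers `G i ^ (n i)` of finite groups with
`n i ≥ bd |G i|`. -/
def LargePower (H : Type) [Group H] : Prop :=
  ∃ (I : Type) (_ : Finite I) (G : I → Type) (_ : ∀ i, Group (G i)) (n : I → ℕ),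
    (∀ i, Finite (G i) ∧ bd (Nat.card (G i)) ≤ n i) ∧
    Nonempty (H ≃* (∀ i, Fin (n i) → G i))

/-- `N` is isomorphic to `Hol(H)/[E(H), E(H)]`. -/
def IsHolE (N H : Type) [Group N] [Group H] : Prop := Nonempty (N ≃* HolE H)

/-- `N` is isomorphic to `Aut(H)/[Aut_c(H), Aut_c(H)]`. -/
def IsAutE (N H : Type) [Group N] [Group H] : Prop := Nonempty (N ≃* AutE H)

/-- `N` is isomorphic to the holomorph `Hol(H) = H ⋊ Aut(H)`. -/
def IsHol (N H : Type) [Group N] [Group H] : Prop := Nonempty (N ≃* Hol H)

/-- `N` is isomorphic to `Aut(H)`. -/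
def IsAut (N H : Type) [Group N] [Group H] : Prop := Nonempty (N ≃* MulAut H)

/-- `N` is one of the groups `Hol(H)/[E(H), E(H)]`, `Aut(H)/[Aut_c(H), Aut_c(H)]`, and, if the
condition `CC H` holds, `Hol(H)`, `Aut(H)`, where `H` is the direct product of finitely many powers
`G i ^ (n i)` of finite groups with `n i ≥ bd |G i|`. -/
def PowerType (N : Type) [Group N] : Prop :=
  ∃ (H : Type) (_ : Group H), LargePower H ∧
    (IsHolE N H ∨ IsAutE N H ∨ CC H ∧ (IsHol N H ∨ IsAut N H))

theorem powerType_cls {N : Type} [Group N] (h : PowerType N) (K : Type) [Field K] (Γ : Type)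
    [Group Γ] : Cls K (MonoidHom.fst Γ N) := by
  obtain ⟨H, i0, ⟨I, i1, G, i2, n, hn, ⟨e0⟩⟩, h1⟩ := h
  have i3 : ∀ i, Finite (G i) := fun i => (hn i).1
  have h00 := cls_holE K Γ G n (fun i => (hn i).2)
  obtain ⟨q0, hq0⟩ := holE_congr e0.symm
  have h0 : Cls K (MonoidHom.fst Γ (HolE H)) := cls_quot q0 hq0 h00
  rcases h1 with ⟨⟨e⟩⟩ | ⟨⟨e⟩⟩ | ⟨hc, ⟨⟨e⟩⟩ | ⟨⟨e⟩⟩⟩
  · exact cls_quot e.symm.toMonoidHom e.symm.surjective h0
  · obtain ⟨q, hq⟩ := holE_to_autE H
    exact cls_quot (e.symm.toMonoidHom.comp q) (e.symm.surjective.comp hq) h0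
  · obtain ⟨q, hq⟩ := holE_to_hol hc
    exact cls_quot (e.symm.toMonoidHom.comp q) (e.symm.surjective.comp hq) h0
  · obtain ⟨q, hq⟩ := holE_to_hol hc
    obtain ⟨q', hq'⟩ := hol_to_aut H
    exact cls_quot (e.symm.toMonoidHom.comp (q'.comp q)) (e.symm.surjective.comp (hq'.comp hq)) h0

theorem powerType_finite {N : Type} [Group N] (h : PowerType N) : Finite N := by
  have h1 := ((powerType_cls h ℚ Unit).main inferInstance).1
  exact Finite.of_injective (fun x : N => ((), x)) (fun x y hxy => congrArg Prod.snd hxy)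

/-- Steps with kernel a power of a group of this type. -/
theorem powerType_inner {N : Type} [Group N] (h : PowerType N) (K : Type) [Field K]
    {W W' : Type} [Group W] [Group W'] (p : W' →* W) (hp : IsInnerPower N p) : Cls K p := by
  have := powerType_finite h
  exact Cls.inner p N (regularOver K N (powerType_cls h K _)) hp

theorem cls_equiv (K : Type) [Field K] {W W' : Type} [Group W] [Group W'] (e : W' ≃* W) :
    Cls K e.toMonoidHom := by
  refine Cls.abelian _ e.symm.toMonoidHom (fun w => e.apply_symm_apply w) ?_ ?_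
  · refine @Finite.of_subsingleton _ ⟨fun a b => ?_⟩
    apply Subtype.ext
    apply e.injective
    exact (MonoidHom.mem_ker.1 a.2).trans (MonoidHom.mem_ker.1 b.2).symm
  · intro x y hx hy
    have h1 : x = 1 := e.injective (hx.trans (map_one e).symm)
    rw [h1, one_mul, mul_one]

section seq

variable (Γ : Type) [Group Γ] (N : ℕ → Type) [∀ k, Group (N k)]

/-- The partial products. -/
abbrev WS (k : ℕ) : Type := Γ × (∀ i : Fin k, N i)

/-- The projections. -/
def pS (k : ℕ) : WS Γ N (k + 1) →* WS Γ N k where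
  toFun x := (x.1, fun i => x.2 i.castSucc)
  map_one' := rfl
  map_mul' _ _ := rfl

/-- The product with one more factor. -/
def eS (k : ℕ) : WS Γ N (k + 1) ≃* WS Γ N k × N k where
  toFun x := (pS Γ N k x, x.2 (Fin.last k))
  invFun y := (y.1.1, Fin.snoc (α := fun i : Fin (k + 1) => N i) y.1.2 y.2)
  left_inv x := by
    apply Prod.ext
    · rfl
    · funext i
      refine Fin.lastCases ?_ (fun j => ?_) i
      · exact Fin.snoc_last (α := fun i : Fin (k + 1) => N i) _ _
      · exact Fin.snoc_castSucc (α := fun i : Fin (k + 1) => N i) _ _ _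
  right_inv y := by
    apply Prod.ext
    · apply Prod.ext
      · rfl
      · funext i
        exact Fin.snoc_castSucc (α := fun i : Fin (k + 1) => N i) _ _ _
    · exact Fin.snoc_last (α := fun i : Fin (k + 1) => N i) _ _
  map_mul' x y := rfl

theorem pS_cls (hN : ∀ k, PowerType (N k)) (K : Type) [Field K] (k : ℕ) : Cls K (pS Γ N k) := by
  have h1 := Cls.comp _ _ (powerType_cls (hN k) K (WS Γ N k)) (cls_equiv K (eS Γ N k))
  have h2 : (MonoidHom.fst (WS Γ N k) (N k)).comp (eS Γ N k).toMonoidHom = pS Γ N k := rfl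
  rw [h2] at h1
  exact h1

/-- The limit is the direct product. -/
def limS : Lim (pS Γ N) ≃* Γ × (∀ k, N k) where
  toFun x := ((x.1 0).1, fun k => (x.1 (k + 1)).2 (Fin.last k))
  invFun y := ⟨fun k => (y.1, fun i => y.2 i), fun k => rfl⟩
  left_inv x := by
    apply Subtype.ext
    funext k
    have h : ∀ k, (x.1 k).1 = (x.1 0).1 ∧
        ∀ i : Fin k, (x.1 k).2 i = (x.1 (i + 1)).2 (Fin.last i) := by
      intro k
      induction k with
      | zero => exact ⟨rfl, fun i => i.elim0⟩
      | succ k ih =>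
        have h1 : pS Γ N k (x.1 (k + 1)) = x.1 k := x.2 k
        refine ⟨?_, fun i => ?_⟩
        · have h2 : (x.1 (k + 1)).1 = (x.1 k).1 := congrArg Prod.fst h1
          exact h2.trans ih.1
        · refine Fin.lastCases ?_ (fun j => ?_) i
          · rfl
          · have h2 : (x.1 (k + 1)).2 j.castSucc = (x.1 k).2 j :=
              congrFun (congrArg Prod.snd h1) j
            exact h2.trans (ih.2 j)
    exact Prod.ext (h k).1.symm (funext fun i => ((h k).2 i).symm)
  right_inv y := rfl
  map_mul' x y := rfl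

/-- The partial product without factors. -/
def zS : WS Γ N 0 ≃* Γ where
  toFun x := x.1
  invFun γ := (γ, fun i => i.elim0)
  left_inv _ := Prod.ext rfl (funext fun i => i.elim0)
  right_inv _ := rfl
  map_mul' _ _ := rfl

theorem isOpen_comp {E F : Type} [Field E] [Field F] [Algebra E F]
    (γ : (F ≃ₐ[E] F) ≃* Lim (pS Γ N))
    (h1 : ∀ i, IsOpen {σ : F ≃ₐ[E] F | (γ σ).1 i = 1}) (k : ℕ) :
    IsOpen {σ : F ≃ₐ[E] F | ((γ.trans (limS Γ N)) σ).2 k = 1} := by
  let A : Subgroup (F ≃ₐ[E] F) :=
    { carrier := {σ | (γ σ).1 (k + 1) = 1}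
      one_mem' := by
        change (γ 1).1 (k + 1) = 1
        rw [map_one]; rfl
      mul_mem' := by
        intro a b ha hb
        change (γ (a * b)).1 (k + 1) = 1
        rw [map_mul]
        change (γ a).1 (k + 1) * (γ b).1 (k + 1) = 1
        rw [show (γ a).1 (k + 1) = 1 from ha, show (γ b).1 (k + 1) = 1 from hb, one_mul]
      inv_mem' := by
        intro a ha
        change (γ a⁻¹).1 (k + 1) = 1
        rw [map_inv]
        change ((γ a).1 (k + 1))⁻¹ = 1
        rw [show (γ a).1 (k + 1) = 1 from ha, inv_one] }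
  let B : Subgroup (F ≃ₐ[E] F) :=
    ((Pi.evalMonoidHom N k).comp ((MonoidHom.snd _ _).comp
      (γ.trans (limS Γ N)).toMonoidHom)).ker
  have hAB : A ≤ B := by
    intro σ hσ
    have h3 : (γ σ).1 (k + 1) = 1 := hσ
    change ((γ σ).1 (k + 1)).2 (Fin.last k) = 1
    rw [h3]
    rfl
  have hA : IsOpen (A : Set (F ≃ₐ[E] F)) := h1 (k + 1)
  exact Subgroup.isOpen_mono hAB hA

end seq

theorem commutator_le_ker {G : Type} [Group G] (f : G →* Subgroup.center G) :
    commutator G ≤ f.ker := by
  rw [commutator_def, Subgroup.commutator_le]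
  intro a _ b _
  rw [MonoidHom.mem_ker, map_commutatorElement, commutatorElement_eq_one_iff_mul_comm]
  exact Subtype.ext (Subgroup.mem_center_iff.1 (f b).2 (f a))

/-- A group whose centre is contained in the commutator subgroup satisfies the condition. -/
theorem cc_of_center_le {G : Type} [Group G] (h : Subgroup.center G ≤ commutator G) : CC G :=
  fun f g x => commutator_le_ker f (h (g x).2)

/-- A finite group whose centre and abelianization have coprime orders satisfies the condition. -/
theorem cc_of_coprime {G : Type} [Group G] [Finite G]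
    (h : Nat.Coprime (Nat.card (Subgroup.center G)) (Nat.card (Abelianization G))) : CC G := by
  intro f g x
  have h1 : ∀ y : G, f y = 1 := by
    intro y
    have h3 : f y ^ Nat.card (Subgroup.center G) = 1 := pow_card_eq_one'
    have h2 : y ^ Nat.card (Abelianization G) ∈ commutator G := by
      have h5 : (QuotientGroup.mk y : G ⧸ commutator G) ^ Nat.card (Abelianization G) = 1 :=
        pow_card_eq_one'
      rw [← QuotientGroup.mk_pow] at h5
      exact (QuotientGroup.eq_one_iff _).1 h5
    have h4 : f y ^ Nat.card (Abelianization G) = 1 := by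
      rw [← map_pow]
      exact commutator_le_ker f h2
    have h5 := Nat.dvd_gcd (orderOf_dvd_of_pow_eq_one h3) (orderOf_dvd_of_pow_eq_one h4)
    rw [h.gcd_eq_one, Nat.dvd_one, orderOf_eq_one_iff] at h5
    exact h5
  exact h1 _

end Pool.Agent.H284.AP
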