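import Pool.Agent.H284.AP.Cl

/-!
# Solutions of single embedding problems from the class
-/

set_option autoImplicit false

namespace Pool.Agent.H284.AP

open Pool.Agent.H391R2 (Wr)
open Pool.Agent.H391R2
open Pool.Agent.TH444.TW
open Pool.Agent.H391R2.T4 (RegSol HilbField)
open Pool.Agent.TH15.IGP (Lim)

/-- A tower with one step. -/
def WW (Γ W' : Type) : ℕ → Type
  | 0 => Γ
  | (_ + 1) => W'

instance groupWW (Γ W' : Type) [Group Γ] [Group W'] : ∀ i, Group (WW Γ W' i)
  | 0 => inferInstanceAs (Group Γ)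
  | (_ + 1) => inferInstanceAs (Group W')

/-- The maps of the tower. -/
def pp {Γ W' : Type} [Group Γ] [Group W'] (α : W' →* Γ) : ∀ i, WW Γ W' (i + 1) →* WW Γ W' i
  | 0 => α
  | (_ + 1) => MonoidHom.id W'

theorem cls_id (K : Type) [Field K] (W : Type) [Group W] : Cls K (MonoidHom.id W) := by
  refine Cls.abelian _ (MonoidHom.id W) (fun w => rfl) ?_ ?_
  · refine @Finite.of_subsingleton _ ⟨fun a b => ?_⟩
    apply Subtype.ext
    exact (MonoidHom.mem_ker.1 a.2).trans (MonoidHom.mem_ker.1 b.2).symm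
  · intro x y hx hy
    have h1 : x = 1 := hx
    rw [h1, one_mul, mul_one]

theorem pp_cls {K Γ W' : Type} [Field K] [Group Γ] [Group W'] {α : W' →* Γ} (h : Cls K α) :
    ∀ i, Cls K (pp α i)
  | 0 => h
  | (_ + 1) => cls_id K W'

/-- The limit of the tower. -/
def limEquiv {Γ W' : Type} [Group Γ] [Group W'] (α : W' →* Γ) : Lim (pp α) ≃* W' where
  toFun x := x.1 1
  invFun w := ⟨fun i => match i with
    | 0 => α w
    | (_ + 1) => w, fun i => by cases i <;> rfl⟩
  left_inv x := by
    apply Subtype.ext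
    funext i
    have h1 : ∀ k, x.1 (k + 1) = x.1 1 := by
      intro k
      induction k with
      | zero => rfl
      | succ k ih => exact (show x.1 (k + 1 + 1) = x.1 (k + 1) from x.2 (k + 1)).trans ih
    cases i with
    | zero => exact x.2 0
    | succ k => exact (h1 k).symm
  right_inv w := rfl
  map_mul' x y := rfl

theorem limEquiv_zero {Γ W' : Type} [Group Γ] [Group W'] (α : W' →* Γ) (x : Lim (pp α)) :
    α (limEquiv α x) = x.1 0 := x.2 0

/-- Regular solutions over `K(t)`, for every field `K`. -/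
theorem regular_one (K L : Type) [Field K] [Field L] [Algebra K L] [FiniteDimensional K L]
    [IsGalois K L] {W' : Type} [Group W'] (α : W' →* (L ≃ₐ[K] L)) (h : Cls K α) :
    RegSol K L W' α := by
  have hfin : Finite W' := (h.main inferInstance).1
  obtain ⟨F, i1, i2, i3, i4, i5, i6, i7, γ, -, h2, h3⟩ := cls_regular K L (WW (L ≃ₐ[K] L) W')
    (pp α) (pp_cls h) (MulEquiv.refl _)
  have hfin2 : Finite (F ≃ₐ[RatFunc K] F) :=
    Finite.of_equiv _ (γ.trans (limEquiv α)).symm.toEquiv
  have hfd : FiniteDimensional (RatFunc K) F :=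
    IsGaloisGroup.finiteDimensional (F ≃ₐ[RatFunc K] F) (RatFunc K) F
  refine ⟨F, i1, i2, i3, i4, i5, i6, hfd, i7, γ.trans (limEquiv α), ?_, h3⟩
  intro σ x
  have h4 := h2 σ x
  change σ (algebraMap L F x) = algebraMap L F (α (limEquiv α (γ σ)) x)
  rw [limEquiv_zero]
  exact h4

/-- Proper solutions over fields with the specialisation property. -/
theorem spec_one {K : Type} [Field K] (hK : Pool.Agent.TH377.IG.SpecProp K) (L : Type) [Field L]
    [Algebra K L] [FiniteDimensional K L] [IsGalois K L] {W' : Type} [Group W']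
    (α : W' →* (L ≃ₐ[K] L)) (h : Cls K α) :
    ∃ (F : Type) (_ : Field F) (_ : Algebra K F) (_ : Algebra L F) (_ : IsScalarTower K L F),
      FiniteDimensional K F ∧ IsGalois K F ∧
      ∃ γ : (F ≃ₐ[K] F) ≃* W', ∀ σ : F ≃ₐ[K] F, α (γ σ) = σ.restrictNormal L := by
  have hfin : Finite W' := (h.main inferInstance).1
  obtain ⟨F, i1, i2, i3, i4, i5, i6, i7, i8, γ, h2, -⟩ := regular_one K L α h
  exact hK L W' α ⟨F, i1, i2, i3, i4, i5, i6, i7, i8, γ, h2⟩

/-- The group is regular over `K(t)`. -/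
theorem regularOver (K : Type) [Field K] (N : Type) [Group N]
    (h : Cls K (MonoidHom.fst (K ≃ₐ[K] K) N)) : RegularOver K N := by
  obtain ⟨F, i1, i2, i3, i4, i5, i6, i7, i8, γ, h2, h3⟩ := regular_one K K _ h
  have h34 : i4 = i3 := Algebra.algebra_ext i4 i3 (fun x =>
    @IsScalarTower.algebraMap_apply K K F _ _ _ _ i3 i4 i6 x)
  subst h34
  refine ⟨F, i1, i2, i4, i5, i7, i8, ⟨γ.trans ?_⟩, h3⟩
  exact
    { toFun := fun x => x.2
      invFun := fun x => (1, x)
      left_inv := fun x => Prod.ext (Subsingleton.elim _ _) rfl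
      right_inv := fun x => rfl
      map_mul' := fun x y => rfl }

end Pool.Agent.H284.AP
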