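import Pool.Agent.H284.AP.Uni
import Pool.Agent.TH444.TW.Fin
import Pool.Agent.TH444.TW.Split

/-!
# Extensions with kernels that are direct products of wreath products
-/

set_option autoImplicit false

namespace Pool.Agent.H284.AP

open Pool.Agent.H391R2 (Wr)
open Pool.Agent.H391R2
open Pool.Agent.TH444.TW
open Pool.Agent.TH59.WX (sgl sgl_left_self)

section lift

/-- A complement of the inner automorphisms, or a coprimality condition, gives lifts of
homomorphisms to `Out(G) ≀ S_k`. -/
theorem section_of_compl {G : Type} [Group G] (h : ∃ T : Subgroup (MulAut G),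
    IsCompl T (MulAut.conj : G →* MulAut G).range) :
    ∃ σ : OutG G →* MulAut G, ∀ y, (QuotientGroup.mk (σ y) : OutG G) = y := by
  obtain ⟨T, hT⟩ := h
  let N := (MulAut.conj : G →* MulAut G).range
  let g : T →* OutG G := (QuotientGroup.mk' N).comp T.subtype
  have hg : Function.Bijective g := by
    constructor
    · rw [injective_iff_map_eq_one]
      intro x hx
      have h2 : (x : MulAut G) ∈ T ⊓ N := ⟨x.2, (QuotientGroup.eq_one_iff _).1 hx⟩
      rw [hT.inf_eq_bot, Subgroup.mem_bot] at h2
      exact Subtype.ext h2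
    · intro y
      obtain ⟨x, rfl⟩ := QuotientGroup.mk'_surjective N y
      have h2 : x ∈ T ⊔ N := by rw [hT.sup_eq_top]; trivial
      obtain ⟨a, ha, b, hb, rfl⟩ := Subgroup.mem_sup_of_normal_right.1 h2
      refine ⟨⟨a, ha⟩, ?_⟩
      change QuotientGroup.mk' N a = QuotientGroup.mk' N (a * b)
      have h3 : QuotientGroup.mk' N b = 1 := (QuotientGroup.eq_one_iff b).2 hb
      rw [map_mul, h3, mul_one]
  refine ⟨T.subtype.comp (MulEquiv.ofBijective g hg).symm.toMonoidHom, fun x => ?_⟩
  exact (MulEquiv.ofBijective g hg).apply_symm_apply x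

theorem lift_hom {G : Type} [Group G] [Finite G] {Y : Type} [Group Y] (κ : Y →* OutG G)
    (M : Subgroup Y) (hM : M ≤ κ.ker)
    (h : (∃ T : Subgroup (MulAut G), IsCompl T (MulAut.conj : G →* MulAut G).range) ∨
      Nat.Coprime (Nat.card G) M.index) :
    ∃ ψ : Y →* MulAut G, (∀ x, (QuotientGroup.mk (ψ x) : OutG G) = κ x) ∧
      ∀ x, κ x = 1 → ψ x = 1 := by
  rcases h with h | h
  · obtain ⟨σ, hσ⟩ := section_of_compl h
    refine ⟨σ.comp κ, fun x => hσ _, fun x hx => ?_⟩
    rw [MonoidHom.comp_apply, hx, map_one]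
  · let mk : MulAut G →* OutG G := QuotientGroup.mk' _
    let P : Subgroup (MulAut G) := κ.range.comap mk
    have hfin : Finite (MulAut G) := Finite.of_injective (fun e : MulAut G => (e : G → G))
      (fun e e' h => MulEquiv.ext (congrFun h))
    let f : P →* κ.range := (mk.comp P.subtype).codRestrict κ.range (fun x => x.2)
    have hf : Function.Surjective f := by
      rintro ⟨y, hy⟩
      obtain ⟨z, rfl⟩ := QuotientGroup.mk'_surjective (MulAut.conj : G →* MulAut G).range y
      exact ⟨⟨z, hy⟩, rfl⟩
    have hker : ∀ z : P, z ∈ f.ker ↔ (z : MulAut G) ∈ (MulAut.conj : G →* MulAut G).range := by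
      intro z
      constructor
      · intro hz
        have h1 : mk z = 1 := congrArg Subtype.val hz
        exact (QuotientGroup.eq_one_iff _).1 h1
      · intro h1
        apply Subtype.ext
        exact (QuotientGroup.eq_one_iff _).2 h1
    let g₁ : G →* P := (MulAut.conj : G →* MulAut G).codRestrict P (fun x => by
      change mk (MulAut.conj x) ∈ κ.range
      have h1 : mk (MulAut.conj x) = 1 := (QuotientGroup.eq_one_iff _).2 ⟨x, rfl⟩
      rw [h1]
      exact one_mem _)
    let g₂ : G →* f.ker := g₁.codRestrict f.ker (fun x => by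
      rw [hker]
      exact ⟨x, rfl⟩)
    have hg₂ : Function.Surjective g₂ := by
      rintro ⟨z, hz⟩
      obtain ⟨x, hx⟩ := (hker z).1 hz
      refine ⟨x, ?_⟩
      apply Subtype.ext
      apply Subtype.ext
      exact hx
    have hcop : Nat.Coprime (Nat.card f.ker) (Nat.card κ.range) := by
      have h1 : Nat.card f.ker ∣ Nat.card G := Subgroup.card_dvd_of_surjective g₂ hg₂
      have h3 : Nat.card κ.range ∣ M.index := by
        rw [← Subgroup.index_ker]
        exact Subgroup.index_dvd_of_le hM
      exact (h.coprime_dvd_left h1).coprime_dvd_right h3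
    obtain ⟨σ, hσ⟩ := sz_section f hf hcop
    refine ⟨P.subtype.comp (σ.comp κ.rangeRestrict), fun x => ?_, fun x hx => ?_⟩
    · exact congrArg Subtype.val (hσ (κ.rangeRestrict x))
    · have h1 : κ.rangeRestrict x = 1 := Subtype.ext hx
      rw [MonoidHom.comp_apply, MonoidHom.comp_apply, h1, map_one, map_one]

/-- The stabilizer of `i`. -/
def stab {B X : Type} [Group B] [Group X] {k : ℕ} (κ : X →* Wr B k) (i : Fin k) :
    Subgroup X where
  carrier := {x | (κ x).right i = i}
  one_mem' := by
    change (κ 1).right i = i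
    rw [map_one]
    rfl
  mul_mem' := by
    intro x y hx hy
    have hx' : (κ x).right i = i := hx
    have hy' : (κ y).right i = i := hy
    change (κ (x * y)).right i = i
    rw [map_mul, wr_mul_right]
    change (κ x).right ((κ y).right i) = i
    rw [hy', hx']
  inv_mem' := by
    intro x hx
    have hx' : (κ x).right i = i := hx
    change (κ x⁻¹).right i = i
    rw [map_inv]
    change (κ x).right⁻¹ i = i
    rw [Equiv.Perm.inv_eq_iff_eq]
    exact hx'.symm

/-- The component at `i` on the stabilizer of `i`. -/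
def locHom {B X : Type} [Group B] [Group X] {k : ℕ} (κ : X →* Wr B k) (i : Fin k) :
    stab κ i →* B where
  toFun x := (κ x).left i
  map_one' := by
    change (κ (1 : X)).left i = 1
    rw [map_one]
    rfl
  map_mul' x y := by
    change (κ (x * y : X)).left i = _
    have h : (κ (x : X)).right⁻¹ i = i := by
      rw [Equiv.Perm.inv_eq_iff_eq]
      exact (show (κ (x : X)).right i = i from x.2).symm
    rw [map_mul, wr_mul_left, h]

theorem lift_loc {A B X : Type} [Group A] [Group B] [Group X] (p : A →* B)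
    (hp : Function.Surjective p) {k : ℕ} (κ : X →* Wr B k)
    (h : ∀ i : Fin k, ∃ ψ : stab κ i →* A, (∀ x, p (ψ x) = locHom κ i x) ∧
      ∀ x, locHom κ i x = 1 → ψ x = 1) :
    ∃ ψ : X →* Wr A k, (∀ x, wrMap p k (ψ x) = κ x) ∧ ∀ x, κ x = 1 → ψ x = 1 := by
  classical
  choose ψ hψ1 hψ2 using h
  let rel : Setoid (Fin k) :=
    { r := fun i i' => ∃ x, (κ x).right i = i'
      iseqv :=
        { refl := fun i => ⟨1, by rw [map_one]; rfl⟩
          symm := fun {i i'} h => by
            obtain ⟨x, hx⟩ := h
            refine ⟨x⁻¹, ?_⟩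
            rw [map_inv]
            change (κ x).right⁻¹ i' = i
            rw [Equiv.Perm.inv_eq_iff_eq]
            exact hx.symm
          trans := fun {i i' i''} h h' => by
            obtain ⟨x, hx⟩ := h
            obtain ⟨y, hy⟩ := h'
            refine ⟨y * x, ?_⟩
            rw [map_mul, wr_mul_right]
            change (κ y).right ((κ x).right i) = i''
            rw [hx, hy] } }
  let rep : Fin k → Fin k := fun i => (Quotient.mk rel i).out
  have hrep : ∀ i, ∃ x, (κ x).right (rep i) = i := fun i =>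
    Quotient.exact (Quotient.out_eq (Quotient.mk rel i))
  choose t ht using hrep
  have hrx : ∀ x i, rep ((κ x).right⁻¹ i) = rep i := by
    intro x i
    have h1 : (Quotient.mk rel ((κ x).right⁻¹ i)) = Quotient.mk rel i :=
      Quotient.sound ⟨x, by simp⟩
    change (Quotient.mk rel _).out = (Quotient.mk rel _).out
    rw [h1]
  choose a ha using fun i => hp ((κ (t i)).left i)
  let Φ : Fin k → X → A := fun r x => if hx : x ∈ stab κ r then ψ r ⟨x, hx⟩ else 1
  have hΦ : ∀ r x (hx : x ∈ stab κ r), Φ r x = ψ r ⟨x, hx⟩ := fun r x hx => dif_pos hx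
  have hΦm : ∀ r x y, x ∈ stab κ r → y ∈ stab κ r → Φ r (x * y) = Φ r x * Φ r y := by
    intro r x y hx hy
    rw [hΦ r x hx, hΦ r y hy, hΦ r _ (mul_mem hx hy), ← map_mul]
    rfl
  have hmem : ∀ x i, (t i)⁻¹ * x * t ((κ x).right⁻¹ i) ∈ stab κ (rep i) := by
    intro x i
    change (κ _).right (rep i) = rep i
    rw [map_mul, map_mul, map_inv]
    change (κ (t i)).right⁻¹ ((κ x).right ((κ (t ((κ x).right⁻¹ i))).right (rep i))) = rep i
    have h1 := ht ((κ x).right⁻¹ i)
    rw [hrx] at h1
    have h2 : (κ x).right ((κ x).right⁻¹ i) = i := by simp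
    rw [h1, h2, Equiv.Perm.inv_eq_iff_eq, ht]
  let L : X → Fin k → A := fun x i =>
    a i * Φ (rep i) ((t i)⁻¹ * x * t ((κ x).right⁻¹ i)) * (a ((κ x).right⁻¹ i))⁻¹
  let Ψ : X →* Wr A k := MonoidHom.mk' (fun x => ⟨L x, (κ x).right⟩) (fun x y => by
    apply SemidirectProduct.ext
    · funext i
      change L (x * y) i = L x i * L y ((κ x).right⁻¹ i)
      have e1 : (κ (x * y)).right⁻¹ i = (κ y).right⁻¹ ((κ x).right⁻¹ i) := by
        rw [map_mul, wr_mul_right, mul_inv_rev]
        rfl
      change a i * Φ (rep i) ((t i)⁻¹ * (x * y) * t ((κ (x * y)).right⁻¹ i)) *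
        (a ((κ (x * y)).right⁻¹ i))⁻¹ =
        (a i * Φ (rep i) ((t i)⁻¹ * x * t ((κ x).right⁻¹ i)) * (a ((κ x).right⁻¹ i))⁻¹) *
        (a ((κ x).right⁻¹ i) * Φ (rep ((κ x).right⁻¹ i))
          ((t ((κ x).right⁻¹ i))⁻¹ * y * t ((κ y).right⁻¹ ((κ x).right⁻¹ i))) *
          (a ((κ y).right⁻¹ ((κ x).right⁻¹ i)))⁻¹)
      have e2 : (t i)⁻¹ * (x * y) * t ((κ y).right⁻¹ ((κ x).right⁻¹ i)) =
          ((t i)⁻¹ * x * t ((κ x).right⁻¹ i)) *
          ((t ((κ x).right⁻¹ i))⁻¹ * y * t ((κ y).right⁻¹ ((κ x).right⁻¹ i))) := by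
        group
      have h3 := hmem y ((κ x).right⁻¹ i)
      rw [hrx] at h3
      rw [e1, hrx x i, e2, hΦm _ _ _ (hmem x i) h3]
      group
    · change (κ (x * y)).right = _
      rw [map_mul]
      rfl)
  refine ⟨Ψ, fun x => ?_, fun x hx => ?_⟩
  · apply SemidirectProduct.ext
    · funext i
      change p (L x i) = (κ x).left i
      change p (a i * Φ (rep i) ((t i)⁻¹ * x * t ((κ x).right⁻¹ i)) *
        (a ((κ x).right⁻¹ i))⁻¹) = _
      rw [map_mul, map_mul, map_inv, ha, ha, hΦ _ _ (hmem x i), hψ1]
      change (κ (t i)).left i * (κ ((t i)⁻¹ * x * t ((κ x).right⁻¹ i))).left (rep i) *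
        ((κ (t ((κ x).right⁻¹ i))).left ((κ x).right⁻¹ i))⁻¹ = (κ x).left i
      have e3 : t i * ((t i)⁻¹ * x * t ((κ x).right⁻¹ i)) = x * t ((κ x).right⁻¹ i) := by
        group
      have e4 := congrArg (fun w => (κ w).left i) e3
      have e5 : (κ (t i * ((t i)⁻¹ * x * t ((κ x).right⁻¹ i)))).left i =
          (κ (t i)).left i *
            (κ ((t i)⁻¹ * x * t ((κ x).right⁻¹ i))).left ((κ (t i)).right⁻¹ i) := by
        rw [map_mul, wr_mul_left]
      have e6 : (κ (x * t ((κ x).right⁻¹ i))).left i =
          (κ x).left i * (κ (t ((κ x).right⁻¹ i))).left ((κ x).right⁻¹ i) := by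
        rw [map_mul, wr_mul_left]
      have e7 : (κ (t i)).right⁻¹ i = rep i := by
        rw [Equiv.Perm.inv_eq_iff_eq, ht]
      rw [e7] at e5
      rw [← e5, e3, e6, mul_inv_cancel_right]
    · rfl
  · have h1 : (κ x).right = 1 := by rw [hx]; rfl
    apply SemidirectProduct.ext
    · funext i
      change L x i = 1
      change a i * Φ (rep i) ((t i)⁻¹ * x * t ((κ x).right⁻¹ i)) *
        (a ((κ x).right⁻¹ i))⁻¹ = 1
      have h2 : (κ x).right⁻¹ i = i := by rw [h1]; simp
      have h3 := hmem x i
      rw [h2] at h3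
      have h4 : κ ((t i)⁻¹ * x * t i) = 1 := by
        rw [map_mul, map_mul, hx, mul_one, ← map_mul, inv_mul_cancel, map_one]
      rw [h2, hΦ _ _ h3, hψ2, mul_one, mul_inv_cancel]
      change (κ ((t i)⁻¹ * x * t i)).left (rep i) = 1
      rw [h4]
      rfl
    · exact h1

/-- The projection to the outer automorphisms in all components. -/
def mkW (G : Type) [Group G] (k : ℕ) : Wr (MulAut G) k →* Wr (OutG G) k :=
  wrMap (QuotientGroup.mk' _) k

end lift

section model

/-- The action of the wreath products of automorphism groups on the product of the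
wreath products. -/
def actA {J : Type} (G : J → Type) [∀ j, Group (G j)] (n k : J → ℕ) :
    (∀ j, Wr (MulAut (G j)) (k j)) →* MulAut (PP (fun j => Wr (G j) (n j)) k) :=
  rho.comp (piMap (fun j => wrMap (twH (n j)) (k j)))

theorem actA_apply {J : Type} (G : J → Type) [∀ j, Group (G j)] (n k : J → ℕ)
    (ψ : ∀ j, Wr (MulAut (G j)) (k j)) (x : PP (fun j => Wr (G j) (n j)) k)
    (a : Σ j, Fin (k j)) :
    actA G n k ψ x a = twH (n a.1) ((ψ a.1).left a.2) (x ⟨a.1, (ψ a.1).right⁻¹ a.2⟩) := rfl

variable (K : Type) [Field K]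

theorem cls_iso {X Y Γ : Type} [Group X] [Group Y] [Group Γ] (p : Y →* Γ) (p' : X →* Γ)
    (e : X →* Y) (he : Function.Surjective e) (h : ∀ x, p (e x) = p' x) (h' : Cls K p') :
    Cls K p := by
  refine Cls.quot p e he ?_
  have h1 : p.comp e = p' := MonoidHom.ext h
  rw [h1]
  exact h'

theorem cls_model (J : Type) [Finite J] : ∀ (G : J → Type) [∀ j, Group (G j)]
    [∀ j, Finite (G j)] (n k : J → ℕ), (∀ j, ((3 * Nat.card (G j) + 2).factorial) ^ 3 ≤ n j) →
    ∀ (Γ : Type) [Group Γ] (ψ : Γ →* ∀ j, Wr (MulAut (G j)) (k j)),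
    Cls K (SemidirectProduct.rightHom :
      PP (fun j => Wr (G j) (n j)) k ⋊[(actA G n k).comp ψ] Γ →* Γ) := by
  induction J using Finite.induction_empty_option with
  | @of_equiv α β e ih =>
    intro G _ _ n k hn Γ _ ψ
    let r : (∀ j, Wr (MulAut (G j)) (k j)) →* (∀ a, Wr (MulAut (G (e a))) (k (e a))) :=
      { toFun := fun x a => x (e a)
        map_one' := rfl
        map_mul' := fun x y => rfl }
    have h1 := ih (fun a => G (e a)) (fun a => n (e a)) (fun a => k (e a)) (fun a => hn (e a)) Γ
      (r.comp ψ)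
    let f : PP (fun j => Wr (G j) (n j)) k →*
        PP (fun a => Wr (G (e a)) (n (e a))) (fun a => k (e a)) :=
      { toFun := fun x a => x ⟨e a.1, a.2⟩
        map_one' := rfl
        map_mul' := fun x y => rfl }
    have hf : Function.Bijective f := by
      constructor
      · intro x y h
        funext ⟨b, i⟩
        obtain ⟨a, rfl⟩ := e.surjective b
        exact congrFun h ⟨a, i⟩
      · intro y
        refine ⟨(Equiv.piCongrLeft (fun b : (Σ j, Fin (k j)) => Wr (G b.1) (n b.1))
          (Equiv.sigmaCongrLeft (β := fun j => Fin (k j)) e)) y, ?_⟩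
        funext a
        exact Equiv.piCongrLeft_apply_apply (fun b : (Σ j, Fin (k j)) => Wr (G b.1) (n b.1))
          (Equiv.sigmaCongrLeft (β := fun j => Fin (k j)) e) y a
    let F := MulEquiv.ofBijective f hf
    have hF : ∀ γ x, F (actA G n k (ψ γ) x) =
        actA (fun a => G (e a)) (fun a => n (e a)) (fun a => k (e a)) (r (ψ γ)) (F x) := by
      intro γ x
      rfl
    refine cls_iso K _ _ (SemidirectProduct.map F.symm.toMonoidHom (MonoidHom.id Γ) ?_) ?_ ?_ h1
    · intro γ
      apply MonoidHom.ext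
      intro y
      change F.symm (actA (fun a => G (e a)) (fun a => n (e a)) (fun a => k (e a)) (r (ψ γ)) y) =
        actA G n k (ψ γ) (F.symm y)
      rw [MulEquiv.symm_apply_eq, hF, MulEquiv.apply_symm_apply]
    · intro z
      refine ⟨⟨F z.left, z.right⟩, ?_⟩
      apply SemidirectProduct.ext
      · exact F.symm_apply_apply _
      · rfl
    · intro z
      rfl
  | h_empty =>
    intro G _ _ n k hn Γ _ ψ
    have hsub : Subsingleton (PP (fun j => Wr (G j) (n j)) k) :=
      ⟨fun x y => funext fun a => a.1.elim⟩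
    refine Cls.abelian _ SemidirectProduct.inr (fun w => rfl) ?_ ?_
    · refine @Finite.of_subsingleton _ ⟨fun a b => ?_⟩
      apply Subtype.ext
      apply SemidirectProduct.ext
      · exact Subsingleton.elim _ _
      · exact (MonoidHom.mem_ker.1 a.2).trans (MonoidHom.mem_ker.1 b.2).symm
    · intro x y hx hy
      apply SemidirectProduct.ext
      · exact Subsingleton.elim _ _
      · change x.right * y.right = y.right * x.right
        have h1 : x.right = 1 := hx
        have h2 : y.right = 1 := hy
        rw [h1, h2]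
  | @h_option α _ ih =>
    intro G _ _ n k hn Γ _ ψ
    let r : (∀ j, Wr (MulAut (G j)) (k j)) →* (∀ a : α, Wr (MulAut (G (some a))) (k (some a))) :=
      { toFun := fun x a => x (some a)
        map_one' := rfl
        map_mul' := fun x y => rfl }
    have h1 := ih (fun a => G (some a)) (fun a => n (some a)) (fun a => k (some a))
      (fun a => hn (some a)) Γ (r.comp ψ)
    let f : PP (fun j => Wr (G j) (n j)) k →*
        PP (fun a => Wr (G (some a)) (n (some a))) (fun a => k (some a)) :=
      { toFun := fun x a => x ⟨some a.1, a.2⟩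
        map_one' := rfl
        map_mul' := fun x y => rfl }
    let q : PP (fun j => Wr (G j) (n j)) k ⋊[(actA G n k).comp ψ] Γ →*
        PP (fun a => Wr (G (some a)) (n (some a))) (fun a => k (some a)) ⋊[(actA
          (fun a => G (some a)) (fun a => n (some a)) (fun a => k (some a))).comp (r.comp ψ)] Γ :=
      SemidirectProduct.map f (MonoidHom.id Γ) (fun γ => by
        apply MonoidHom.ext
        intro y
        rfl)
    have hq : IsTwistedPower (G none) (n none) q := by
      let ι₀ : (Fin (k none) → Wr (G none) (n none)) →* PP (fun j => Wr (G j) (n j)) k :=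
        { toFun := fun y a =>
            match a with
            | ⟨none, i⟩ => y i
            | ⟨some _, _⟩ => 1
          map_one' := by
            funext a
            rcases a with ⟨(_ | a), i⟩ <;> rfl
          map_mul' := fun x y => by
            funext a
            rcases a with ⟨(_ | a), i⟩
            · rfl
            · exact (one_mul 1).symm }
      let s₀ : PP (fun a => Wr (G (some a)) (n (some a))) (fun a => k (some a)) →*
          PP (fun j => Wr (G j) (n j)) k :=
        { toFun := fun y a =>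
            match a with
            | ⟨none, _⟩ => 1
            | ⟨some b, i⟩ => y ⟨b, i⟩
          map_one' := by
            funext a
            rcases a with ⟨(_ | a), i⟩ <;> rfl
          map_mul' := fun x y => by
            funext a
            rcases a with ⟨(_ | a), i⟩
            · exact (one_mul 1).symm
            · rfl }
      let ev : (∀ j, Wr (MulAut (G j)) (k j)) →* Wr (MulAut (G none)) (k none) :=
        { toFun := fun x => x none
          map_one' := rfl
          map_mul' := fun x y => rfl }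
      refine ⟨k none, (ev.comp ψ).comp SemidirectProduct.rightHom,
        SemidirectProduct.inl.comp ι₀, SemidirectProduct.map s₀ (MonoidHom.id Γ) ?_, ?_, ?_, ?_, ?_⟩
      · intro γ
        apply MonoidHom.ext
        intro y
        funext a
        rcases a with ⟨(_ | a), i⟩
        · exact (map_one (twH (n none) ((ψ γ none).left i))).symm
        · rfl
      · intro x y hxy
        funext i
        exact congrFun (SemidirectProduct.inl_injective hxy) ⟨none, i⟩
      · ext w
        constructor
        · rintro ⟨x, rfl⟩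
          rfl
        · intro hw
          have h2 : q w = 1 := hw
          have h3 : f w.left = 1 := congrArg (fun z => z.left) h2
          have h4 : w.right = 1 := congrArg (fun z => z.right) h2
          refine ⟨fun i => w.left ⟨none, i⟩, ?_⟩
          apply SemidirectProduct.ext
          · funext a
            rcases a with ⟨(_ | a), i⟩
            · rfl
            · exact (congrFun h3 ⟨a, i⟩).symm
          · exact h4.symm
      · intro w
        rfl
      · intro w x
        apply SemidirectProduct.ext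
        · funext a
          rcases a with ⟨(_ | a), i⟩
          · change 1 * twH (n none) ((ψ w.right none).left i) (x ((ψ w.right none).right⁻¹ i)) =
              twist ((ψ w.right none).left i) (x ((ψ w.right none).right⁻¹ i)) *
                twH (n none) ((ψ 1 none).left i) 1
            rw [map_one, one_mul, mul_one]
            rfl
          · change w.left ⟨a, i⟩ * twH (n (some a)) ((ψ w.right (some a)).left i) 1 =
              1 * twH (n (some a)) ((ψ 1 (some a)).left i) (w.left ⟨a, (ψ 1 (some a)).right⁻¹ i⟩)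
            rw [map_one, mul_one, one_mul, map_one]
            change w.left ⟨a, i⟩ =
              twH (n (some a)) 1 (w.left ⟨a, (1 : Equiv.Perm (Fin (k (some a))))⁻¹ i⟩)
            have h3 : (1 : Equiv.Perm (Fin (k (some a))))⁻¹ i = i := by simp
            rw [h3, map_one]
            rfl
        · change w.right * 1 = 1 * w.right
          rw [mul_one, one_mul]
    have h2 := Cls.comp _ _ h1 (Cls.wreath q (G none) (n none) (hn none) hq)
    exact h2

end model

section main

theorem mem_center_wr {G : Type} [Group G] (hZ : Subgroup.center G = ⊥) :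
    ∀ z : G, (∀ g : G, z * g = g * z) → z = 1 := by
  intro z hz
  have h1 : z ∈ Subgroup.center G := Subgroup.mem_center_iff.2 fun g => (hz g).symm
  rwa [hZ, Subgroup.mem_bot] at h1

/-- The `a`-th factor of the subgroup `N` of `X`, for an isomorphism `e` of `N` with a direct
product: the set of the elements of `N` all of whose components at `b ≠ a` are trivial. -/
def Factor {X A : Type} [Group X] {N : Subgroup X} {P : A → Type} [∀ a, Group (P a)]
    (e : N ≃* ∀ a, P a) (a : A) : Subgroup X where
  carrier := {x | ∃ h : x ∈ N, ∀ b, b ≠ a → e ⟨x, h⟩ b = 1}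
  one_mem' := ⟨N.one_mem, fun b _ => by
    have h : e ⟨1, N.one_mem⟩ = 1 := map_one e
    rw [h]
    rfl⟩
  mul_mem' := by
    rintro x y ⟨hx, hx'⟩ ⟨hy, hy'⟩
    refine ⟨N.mul_mem hx hy, fun b hb => ?_⟩
    have h : e ⟨x * y, N.mul_mem hx hy⟩ = e ⟨x, hx⟩ * e ⟨y, hy⟩ := by
      rw [← map_mul]
      rfl
    rw [h, Pi.mul_apply, hx' b hb, hy' b hb, one_mul]
  inv_mem' := by
    rintro x ⟨hx, hx'⟩
    refine ⟨N.inv_mem hx, fun b hb => ?_⟩
    have h : e ⟨x⁻¹, N.inv_mem hx⟩ = (e ⟨x, hx⟩)⁻¹ := by
      rw [← map_inv]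
      rfl
    rw [h, Pi.inv_apply, hx' b hb, inv_one]

/-- The index of `F C_X(F)` in the normalizer of the subgroup `F` of `X`. -/
noncomputable def locIndex {X : Type} [Group X] (F : Subgroup X) : ℕ :=
  (F ⊔ Subgroup.centralizer (F : Set X)).relIndex (Subgroup.normalizer (F : Set X))

/-- The inner automorphisms of `G` have a complement in `Aut G`. -/
def InnerSplit (G : Type) [Group G] : Prop :=
  ∃ T : Subgroup (MulAut G), IsCompl T (MulAut.conj : G →* MulAut G).range

/-- The case of distinct isomorphism types with multiplicities. -/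
theorem cls_pp (K : Type) [Field K] {J : Type} [Finite J] (G : J → Type) [∀ j, Group (G j)]
    [∀ j, Finite (G j)] [∀ j, Nontrivial (G j)] (n k : J → ℕ)
    (hZ : ∀ j, Subgroup.center (G j) = ⊥)
    (hn : ∀ j, ((3 * Nat.card (G j) + 2).factorial) ^ 3 ≤ n j)
    (hne : ∀ j j', Nonempty (Wr (G j) (n j) ≃* Wr (G j') (n j')) → j = j')
    {X Γ : Type} [Group X] [Group Γ] (β : X →* Γ) (hβ : Function.Surjective β)
    (e : β.ker ≃* PP (fun j => Wr (G j) (n j)) k)
    (hc : ∀ a : (Σ j, Fin (k j)), InnerSplit (G a.1) ∨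
      Nat.Coprime (Nat.card (G a.1)) (locIndex (Factor e a))) :
    Cls K β := by
  classical
  let T : J → Type := fun j => Wr (G j) (n j)
  have hZ' := fun j => mem_center_wr (hZ j)
  have hbig : ∀ j, 2 * (Nat.card (G j) + 2) ≤ n j := by
    intro j
    refine le_trans ?_ (hn j)
    have h1 : 1 ≤ Nat.card (G j) := Nat.card_pos
    have h2 : 2 * (Nat.card (G j) + 2) ≤ (3 * Nat.card (G j) + 2) * 2 := by omega
    have h3 : (3 * Nat.card (G j) + 2) * 2 ≤ (3 * Nat.card (G j) + 2).factorial := by
      have h4 : (3 * Nat.card (G j) + 2).factorial =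
          (3 * Nat.card (G j) + 2) * (3 * Nat.card (G j) + 1).factorial := Nat.factorial_succ _
      rw [h4]
      refine Nat.mul_le_mul_left _ ?_
      have h5 : 3 * Nat.card (G j) + 1 ≤ (3 * Nat.card (G j) + 1).factorial :=
        Nat.self_le_factorial _
      omega
    have h6 : (3 * Nat.card (G j) + 2).factorial ≤ ((3 * Nat.card (G j) + 2).factorial) ^ 3 :=
      Nat.le_self_pow (by norm_num) _
    omega
  have hfinT : ∀ j, Finite (T j) := fun j => Finite.of_equiv _ SemidirectProduct.equivProd.symm
  have hntT : ∀ j, Nontrivial (T j) := by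
    intro j
    obtain ⟨g, hg⟩ := exists_ne (1 : G j)
    have hn0 : 0 < n j := by
      have := hbig j
      omega
    refine ⟨⟨sgl ⟨0, hn0⟩ g, 1, fun h => hg ?_⟩⟩
    have h1 := congrArg (fun w : Wr (G j) (n j) => w.left ⟨0, hn0⟩) h
    exact (sgl_left_self _ _).symm.trans h1
  have hIT : ∀ j, Indec (T j) := fun j => indec_wr (hZ' j) (by have := hbig j; omega)
  have hZT : ∀ j, Subgroup.center (T j) = ⊥ := fun j => center_wr (hZ' j)
  have hrb : Function.Bijective (rho (T := T) (k := k)) := ⟨rho_inj, rho_surj hIT hne hZT⟩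
  let R := MulEquiv.ofBijective (rho (T := T) (k := k)) hrb
  let c : X →* MulAut (PP T k) := (MulAut.congr e).toMonoidHom.comp MulAut.conjNormal
  have hcx : ∀ (x : X) (v : β.ker), x * (v : X) * x⁻¹ = (e.symm (c x (e v)) : X) := by
    intro x v
    change _ = (e.symm (e (MulAut.conjNormal x (e.symm (e v)))) : X)
    rw [MulEquiv.symm_apply_apply, MulEquiv.symm_apply_apply, MulAut.conjNormal_apply]
  have hcv : ∀ v : β.ker, c v = MulAut.conj (e v) := by
    intro v
    refine MulEquiv.ext fun y => ?_
    apply e.symm.injective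
    apply Subtype.ext
    obtain ⟨w, rfl⟩ := e.surjective y
    rw [← hcx, MulAut.conj_apply, map_mul, map_mul, map_inv, MulEquiv.symm_apply_apply,
      MulEquiv.symm_apply_apply]
    rfl
  let u : X →* ∀ j, Wr (MulAut (T j)) (k j) := R.symm.toMonoidHom.comp c
  have hru : ∀ x, rho (u x) = c x := fun x => R.apply_symm_apply (c x)
  choose O hO1 hO2 using fun j => exists_O (G := G j) (n := n j) (hbig j) (hZ' j)
  let OO : (∀ j, Wr (MulAut (T j)) (k j)) →* (∀ j, Wr (OutG (G j)) (k j)) :=
    piMap (fun j => wrMap (O j) (k j))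
  let tw : (∀ j, Wr (MulAut (G j)) (k j)) →* (∀ j, Wr (MulAut (T j)) (k j)) :=
    piMap (fun j => wrMap (twH (n j)) (k j))
  have hOq : ∀ y j, OO (tw y) j = mkW (G j) (k j) (y j) := by
    intro y j
    apply SemidirectProduct.ext
    · funext i
      exact hO1 j _
    · rfl
  have hone : ∀ w : PP T k, rho (T := T) (k := k)
      (fun j => ⟨fun i => MulAut.conj (w ⟨j, i⟩), 1⟩) = MulAut.conj w := by
    intro w
    refine MulEquiv.ext fun x => ?_
    funext a
    rw [rho_apply]
    change w a * x ⟨a.1, (1 : Equiv.Perm (Fin (k a.1)))⁻¹ a.2⟩ * (w a)⁻¹ = w a * x a * (w a)⁻¹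
    have h3 : (1 : Equiv.Perm (Fin (k a.1)))⁻¹ a.2 = a.2 := by simp
    rw [h3]
  have hout : ∀ y, OO y = 1 ↔ ∃ w : PP T k, rho y = MulAut.conj w := by
    intro y
    constructor
    · intro hy
      have h1 : ∀ a : (Σ j, Fin (k j)), ∃ w : T a.1, (y a.1).left a.2 = MulAut.conj w := by
        intro a
        refine (hO2 a.1 _).1 ?_
        exact congrArg (fun z : (∀ j, Wr (OutG (G j)) (k j)) => (z a.1).left a.2) hy
      choose w hw using h1
      refine ⟨w, ?_⟩
      rw [← hone]
      congr 1
      funext j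
      apply SemidirectProduct.ext
      · funext i
        exact hw ⟨j, i⟩
      · exact congrArg (fun z : (∀ j, Wr (OutG (G j)) (k j)) => (z j).right) hy
    · rintro ⟨w, hw⟩
      rw [← hone] at hw
      have h1 := hrb.1 hw
      rw [h1]
      funext j
      apply SemidirectProduct.ext
      · funext i
        exact (hO2 j _).2 ⟨_, rfl⟩
      · rfl
  have hkill : ∀ x, β x = 1 → OO (u x) = 1 := by
    intro x hx
    refine (hout _).2 ⟨e ⟨x, hx⟩, ?_⟩
    rw [hru]
    exact hcv ⟨x, hx⟩
  let κ : ∀ j, X →* Wr (OutG (G j)) (k j) := fun j =>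
    (Pi.evalMonoidHom (fun j => Wr (OutG (G j)) (k j)) j).comp (OO.comp u)
  have hcap : ∀ (x : X) (v : β.ker) (b : Σ j, Fin (k j)), c x (e v) b =
      (u x b.1).left b.2 (e v ⟨b.1, (u x b.1).right⁻¹ b.2⟩) := by
    intro x v b
    rw [← hru]
    rfl
  have hlift : ∀ j, ∃ ψ : X →* Wr (MulAut (G j)) (k j), (∀ x, mkW (G j) (k j) (ψ x) = κ j x) ∧
      ∀ x, κ j x = 1 → ψ x = 1 := by
    intro j
    refine lift_loc (QuotientGroup.mk' _) (QuotientGroup.mk'_surjective _) (κ j) (fun i => ?_)
    let F : Subgroup X := Factor e ⟨j, i⟩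
    let Y : Subgroup X := stab (κ j) i
    let L : Subgroup X := (locHom (κ j) i).ker.map Y.subtype
    have hLY : L ≤ Y := by
      rintro _ ⟨y, -, rfl⟩
      exact y.2
    have hFL : F ⊔ Subgroup.centralizer (F : Set X) ≤ L := by
      refine sup_le ?_ ?_
      · rintro x ⟨hx, -⟩
        have h1 : κ j x = 1 := congrFun (hkill x hx) j
        have h2 : x ∈ Y := by
          change (κ j x).right i = i
          rw [h1]
          rfl
        refine ⟨⟨x, h2⟩, ?_, rfl⟩
        change (κ j x).left i = 1
        rw [h1]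
        rfl
      · intro x hx
        have h1 : ∀ t : T j, c x (Pi.mulSingle (⟨j, i⟩ : Σ j, Fin (k j)) t) =
            Pi.mulSingle (⟨j, i⟩ : Σ j, Fin (k j)) t := by
          intro t
          obtain ⟨v, hv⟩ := e.surjective (Pi.mulSingle (⟨j, i⟩ : Σ j, Fin (k j)) t)
          have hvF : (v : X) ∈ F := by
            refine ⟨v.2, fun b hb => ?_⟩
            change e v b = 1
            rw [hv, Pi.mulSingle_eq_of_ne hb]
          have h3 := Subgroup.mem_centralizer_iff.1 hx v hvF
          have h4 := hcx x v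
          rw [← h3, mul_inv_cancel_right] at h4
          have h5 : v = e.symm (c x (e v)) := Subtype.ext h4
          rw [← hv]
          exact ((MulEquiv.eq_symm_apply e).1 h5).symm
        have h2 : (u x j).right⁻¹ i = i := by
          by_contra hne'
          obtain ⟨t, ht⟩ := exists_ne (1 : T j)
          have h3 := congrFun (h1 t) ⟨j, i⟩
          rw [← hru, rho_apply, Pi.mulSingle_eq_same, Pi.mulSingle_eq_of_ne, map_one] at h3
          · exact ht h3.symm
          · intro h4
            exact hne' (eq_of_heq (Sigma.mk.inj h4).2)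
        have h3 : (u x j).left i = 1 := by
          refine MulEquiv.ext fun t => ?_
          have h4 := congrFun (h1 t) ⟨j, i⟩
          rw [← hru, rho_apply] at h4
          dsimp only at h4
          rw [h2, Pi.mulSingle_eq_same] at h4
          exact h4
        have h4 : x ∈ Y := by
          change (u x j).right i = i
          rw [Equiv.Perm.inv_eq_iff_eq] at h2
          exact h2.symm
        refine ⟨⟨x, h4⟩, ?_, rfl⟩
        change O j ((u x j).left i) = 1
        rw [h3, map_one]
    have hYN : Y ≤ Subgroup.normalizer (F : Set X) := by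
      have h0 : ∀ x ∈ Y, ∀ v ∈ F, x * v * x⁻¹ ∈ F := by
        rintro x hx v ⟨hv, hv'⟩
        have h1 : x * v * x⁻¹ ∈ β.ker := (MonoidHom.normal_ker β).conj_mem v hv x
        refine ⟨h1, fun b hb => ?_⟩
        have h2 : (⟨x * v * x⁻¹, h1⟩ : β.ker) = e.symm (c x (e ⟨v, hv⟩)) :=
          Subtype.ext (hcx x ⟨v, hv⟩)
        rw [h2, MulEquiv.apply_symm_apply, hcap]
        have h3 : e ⟨v, hv⟩ ⟨b.1, (u x b.1).right⁻¹ b.2⟩ = 1 := by
          refine hv' _ ?_
          intro h4
          apply hb
          obtain ⟨b1, b2⟩ := b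
          have h5 : b1 = j := (Sigma.mk.inj h4).1
          subst h5
          have h6 : (u x b1).right⁻¹ b2 = i := eq_of_heq (Sigma.mk.inj h4).2
          rw [Equiv.Perm.inv_eq_iff_eq] at h6
          have h7 : (u x b1).right i = i := hx
          rw [h6, h7]
        rw [h3, map_one]
      intro x hx
      rw [Subgroup.mem_normalizer_iff]
      intro v
      refine ⟨h0 x hx v, fun h => ?_⟩
      have h1 := h0 x⁻¹ (Y.inv_mem hx) _ h
      have h2 : x⁻¹ * (x * v * x⁻¹) * x⁻¹⁻¹ = v := by group
      rwa [h2] at h1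
    refine lift_hom (locHom (κ j) i) ((F ⊔ Subgroup.centralizer (F : Set X)).subgroupOf Y) ?_ ?_
    · intro y hy
      obtain ⟨z, hz, hzy⟩ := hFL (Subgroup.mem_subgroupOf.1 hy)
      have h1 : z = y := Subtype.ext hzy
      rw [← h1]
      exact hz
    · refine (hc ⟨j, i⟩).imp id (fun h => ?_)
      refine h.coprime_dvd_right ?_
      exact ⟨_, (Subgroup.relIndex_mul_relIndex _ _ _ (hFL.trans hLY) hYN).symm⟩
  choose ψ hψ1 hψ2 using hlift
  let Ψ : X →* ∀ j, Wr (MulAut (G j)) (k j) := MonoidHom.pi ψ
  have hΨ1 : ∀ x, OO (tw (Ψ x)) = OO (u x) := by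
    intro x
    funext j
    rw [hOq]
    exact hψ1 j x
  have hΨ2 : ∀ x, β x = 1 → Ψ x = 1 := by
    intro x hx
    funext j
    refine hψ2 j x ?_
    exact congrFun (hkill x hx) j
  have hex : ∀ γ, ∃ y, β y = γ ∧ c y = rho (tw (Ψ y)) := by
    intro γ
    obtain ⟨x, rfl⟩ := hβ γ
    have h1 : OO (u x * (tw (Ψ x))⁻¹) = 1 := by
      rw [map_mul, map_inv, hΨ1, mul_inv_cancel]
    obtain ⟨w, hw⟩ := (hout _).1 h1
    rw [map_mul, map_inv, hru] at hw
    let v := e.symm w
    have hv : β (v : X) = 1 := v.2
    refine ⟨(v : X)⁻¹ * x, ?_, ?_⟩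
    · rw [map_mul, map_inv, hv, inv_one, one_mul]
    · have h2 : Ψ ((v : X)⁻¹ * x) = Ψ x := by
        rw [map_mul, map_inv, hΨ2 _ hv, inv_one, one_mul]
      have h3 : c (v : X) = MulAut.conj w := by
        rw [hcv, MulEquiv.apply_symm_apply]
      rw [h2, map_mul, map_inv, h3, ← hw]
      group
  have huniq : ∀ y y', β y = β y' → c y = rho (tw (Ψ y)) → c y' = rho (tw (Ψ y')) → y = y' := by
    intro y y' h1 h2 h3
    have h4 : β (y * y'⁻¹) = 1 := by rw [map_mul, map_inv, h1, mul_inv_cancel]
    have h5 : Ψ y = Ψ y' := by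
      have h6 := hΨ2 _ h4
      rw [map_mul, map_inv] at h6
      exact mul_inv_eq_one.1 h6
    have h6 : c (y * y'⁻¹) = 1 := by
      rw [map_mul, map_inv, h2, h3, h5, mul_inv_cancel]
    have h7 := hcv ⟨_, h4⟩
    have h8 : e ⟨_, h4⟩ = 1 := by
      have h9 : e ⟨y * y'⁻¹, h4⟩ ∈ Subgroup.center (PP T k) := by
        rw [Subgroup.mem_center_iff]
        intro g
        have h10 : MulAut.conj (e ⟨y * y'⁻¹, h4⟩) g = g := by
          rw [← h7]
          change c (y * y'⁻¹) g = g
          rw [h6]
          rfl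
        rw [MulAut.conj_apply, mul_inv_eq_iff_eq_mul] at h10
        exact h10.symm
      funext a
      have h11 := mem_center_pi.1 h9 a
      rw [hZT, Subgroup.mem_bot] at h11
      exact h11
    have h12 : (⟨y * y'⁻¹, h4⟩ : β.ker) = 1 := (map_eq_one_iff e e.injective).1 h8
    exact mul_inv_eq_one.1 (congrArg Subtype.val h12)
  choose sec hsec1 hsec2 using hex
  let s : Γ →* X := MonoidHom.mk' sec (fun γ γ' => by
    refine huniq _ _ ?_ (hsec2 _) ?_
    · rw [hsec1, map_mul, hsec1, hsec1]
    · rw [map_mul, map_mul, map_mul, map_mul, hsec2, hsec2])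
  obtain ⟨e', he'⟩ := exists_sdEquiv ((actA G n k).comp (Ψ.comp s)) β
    (β.ker.subtype.comp e.symm.toMonoidHom) s
    ((Subgroup.subtype_injective _).comp e.symm.injective) (by
      ext x
      constructor
      · rintro ⟨y, rfl⟩
        exact (e.symm y).2
      · intro hx
        exact ⟨e ⟨x, hx⟩, congrArg Subtype.val (e.symm_apply_apply ⟨x, hx⟩)⟩) hsec1 (by
      intro w x
      have h1 := hcx (s w) (e.symm x)
      rw [MulEquiv.apply_symm_apply] at h1
      have h2 : c (s w) = actA G n k (Ψ (s w)) := hsec2 w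
      rw [h2] at h1
      exact mul_inv_eq_iff_eq_mul.1 h1)
  refine cls_iso K β SemidirectProduct.rightHom e'.symm.toMonoidHom e'.symm.surjective ?_
    (cls_model K J G n k hn Γ (Ψ.comp s))
  intro x
  change β (e'.symm x) = _
  rw [← he', MulEquiv.apply_symm_apply]

/-- Grouping of isomorphic factors; the representatives have the property `Q` if possible. -/
theorem grouping2 {I : Type} [Finite I] (T : I → Type) [∀ i, Group (T i)] (Q : I → Prop) :
    ∃ (J : Type) (_ : Finite J) (r : J → I) (m : J → ℕ) (E : (Σ j, Fin (m j)) ≃ I)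
      (e : (∀ i, T i) ≃* PP (fun j => T (r j)) m),
      (∀ j j', Nonempty (T (r j) ≃* T (r j')) → j = j') ∧
      (∀ y s, e y s = 1 ↔ y (E s) = 1) ∧ (∀ s, Nonempty (T (E s) ≃* T (r s.1))) ∧
      ∀ s, Q (E s) → Q (r s.1) := by
  classical
  let rel : Setoid I :=
    { r := fun b b' => Nonempty (T b ≃* T b')
      iseqv :=
        { refl := fun b => ⟨MulEquiv.refl _⟩
          symm := fun h => ⟨h.some.symm⟩
          trans := fun h h' => ⟨h.some.trans h'.some⟩ } }
  let J : Type := Quotient rel
  let fib : J → Type := fun j => {i : I // (Quotient.mk rel i : J) = j}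
  have hfin : ∀ j, Finite (fib j) := fun j => inferInstance
  let m : J → ℕ := fun j => Nat.card (fib j)
  let E : (Σ j, Fin (m j)) ≃ I :=
    (Equiv.sigmaCongrRight fun j => (Finite.equivFin (fib j)).symm).trans
      (Equiv.sigmaFiberEquiv fun i : I => (Quotient.mk rel i : J))
  have hE : ∀ s, (Quotient.mk rel (E s) : J) = s.1 := fun s =>
    ((Finite.equivFin (fib s.1)).symm s.2).2
  have hr : ∀ j : J, ∃ i, (Quotient.mk rel i : J) = j ∧
      ∀ i', (Quotient.mk rel i' : J) = j → Q i' → Q i := by
    intro j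
    by_cases h : ∃ i', (Quotient.mk rel i' : J) = j ∧ Q i'
    · obtain ⟨i', h1, h2⟩ := h
      exact ⟨i', h1, fun _ _ _ => h2⟩
    · refine ⟨j.out, Quotient.out_eq j, fun i' h1 h2 => ?_⟩
      exact (h ⟨i', h1, h2⟩).elim
  choose r hr1 hr2 using hr
  have hiso : ∀ s : (Σ j, Fin (m j)), Nonempty (T (E s) ≃* T (r s.1)) := by
    intro s
    have h1 : (Quotient.mk rel (E s) : J) = Quotient.mk rel (r s.1) := by
      rw [hE, hr1]
    exact Quotient.exact h1
  let f : (∀ i, T i) →* PP (fun j => T (r j)) m :=
    { toFun := fun y s => (hiso s).some (y (E s))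
      map_one' := by funext s; simp
      map_mul' := fun x y => by funext s; simp }
  have hf : Function.Bijective f := by
    constructor
    · intro y y' h
      funext q
      obtain ⟨s, rfl⟩ := E.surjective q
      exact (hiso s).some.injective (congrFun h s)
    · intro y
      refine ⟨(Equiv.piCongrLeft T E) (fun s => (hiso s).some.symm (y s)), ?_⟩
      funext s
      change (hiso s).some ((Equiv.piCongrLeft T E) (fun s => (hiso s).some.symm (y s)) (E s)) = y s
      rw [Equiv.piCongrLeft_apply_apply, MulEquiv.apply_symm_apply]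
  refine ⟨J, inferInstance, r, m, E, MulEquiv.ofBijective f hf, ?_, ?_, hiso, ?_⟩
  · intro j j' h
    have h1 : (Quotient.mk rel (r j) : J) = Quotient.mk rel (r j') := Quotient.sound h
    rwa [hr1, hr1] at h1
  · intro y s
    change (hiso s).some (y (E s)) = 1 ↔ _
    exact map_eq_one_iff _ (hiso s).some.injective
  · intro s h
    exact hr2 s.1 (E s) (hE s) h

/-- `p : X → Γ` is surjective and its kernel `N` is isomorphic, by `e`, to a finite direct product
of wreath products `G i ≀ S_(n i)`, where the `G i` are nontrivial finite groups with trivial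
centre and `n i ≥ ((3 |G i| + 2)!)^3`; for every `i` the inner automorphisms of `G i` have a
complement in `Aut (G i)`, or `|G i|` is coprime to the index of `F C_X(F)` in the normalizer of
`F`, where `F` is the `i`-th factor of `N`. -/
def WreathStep {X Γ : Type} [Group X] [Group Γ] (p : X →* Γ) : Prop :=
  Function.Surjective p ∧
  ∃ (I : Type) (_ : Finite I) (G : I → Type) (_ : ∀ i, Group (G i)) (_ : ∀ i, Finite (G i))
    (n : I → ℕ) (e : p.ker ≃* (∀ i, Wr (G i) (n i))),
    ∀ i, Nontrivial (G i) ∧ Subgroup.center (G i) = ⊥ ∧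
      ((3 * Nat.card (G i) + 2).factorial) ^ 3 ≤ n i ∧
      (InnerSplit (G i) ∨ Nat.Coprime (Nat.card (G i)) (locIndex (Factor e i)))

theorem wreathStep_cls (K : Type) [Field K] {X Γ : Type} [Group X] [Group Γ] {p : X →* Γ}
    (h : WreathStep p) : Cls K p := by
  obtain ⟨hp, I, i1, G, i2, i3, n, e, h⟩ := h
  have i4 : ∀ i, Nontrivial (G i) := fun i => (h i).1
  have hbig : ∀ i, 2 * (Nat.card (G i) + 2) ≤ n i := by
    intro j
    refine le_trans ?_ (h j).2.2.1
    have h1 : 1 ≤ Nat.card (G j) := Nat.card_pos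
    have h3 : (3 * Nat.card (G j) + 2) * 2 ≤ (3 * Nat.card (G j) + 2).factorial := by
      have h4 : (3 * Nat.card (G j) + 2).factorial =
          (3 * Nat.card (G j) + 2) * (3 * Nat.card (G j) + 1).factorial := Nat.factorial_succ _
      rw [h4]
      refine Nat.mul_le_mul_left _ ?_
      have h5 : 3 * Nat.card (G j) + 1 ≤ (3 * Nat.card (G j) + 1).factorial :=
        Nat.self_le_factorial _
      omega
    have h6 : (3 * Nat.card (G j) + 2).factorial ≤ ((3 * Nat.card (G j) + 2).factorial) ^ 3 :=
      Nat.le_self_pow (by norm_num) _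
    omega
  obtain ⟨J, j1, r, m, E, e2, h1, h2, h3, h4⟩ :=
    grouping2 (fun i => Wr (G i) (n i)) (fun i => InnerSplit (G i))
  refine cls_pp K (fun j => G (r j)) (fun j => n (r j)) m (fun j => (h (r j)).2.1)
    (fun j => (h (r j)).2.2.1) h1 p hp (e.trans e2) ?_
  intro a
  have h5 : Factor (e.trans e2) a = Factor e (E a) := by
    ext x
    constructor
    · rintro ⟨hx, hx'⟩
      refine ⟨hx, fun b hb => ?_⟩
      obtain ⟨s, rfl⟩ := E.surjective b
      exact (h2 _ s).1 (hx' s (fun hs => hb (by rw [hs])))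
    · rintro ⟨hx, hx'⟩
      refine ⟨hx, fun b hb => ?_⟩
      exact (h2 _ b).2 (hx' (E b) (fun hs => hb (E.injective hs)))
  rw [h5]
  by_cases hs : InnerSplit (G (r a.1))
  · exact Or.inl hs
  · right
    have h6 : ¬ InnerSplit (G (E a)) := fun h7 => hs (h4 a h7)
    have h7 := (h (E a)).2.2.2.resolve_left h6
    obtain ⟨φ⟩ := h3 a
    have h8 := wr_card (hbig (E a)) (hbig (r a.1)) φ
    change Nat.Coprime (Nat.card (G (r a.1))) _
    rw [← h8]
    exact h7

end main

end Pool.Agent.H284.AP
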