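import Pool.Agent.H284.AP.Ext

/-!
# Isomorphic wreath products
-/

set_option autoImplicit false

namespace Pool.Agent.H284.AP

open Pool.Agent.H391R2 (Wr)
open Pool.Agent.H391R2
open Pool.Agent.TH59.WX (card_base)

section uni

variable {G : Type} [Group G] {n : ℕ}

/-- Normal subgroups of order `c ^ e`, `c` small, lie in the base group. -/
theorem base_le' (c e : ℕ) (hc0 : 0 < c) (hn : 2 * (c + 2) ≤ n) (M : Subgroup (Wr G n))
    (hM : M.Normal) (hc : Nat.card M = c ^ e) (x : Wr G n) (hx : x ∈ M) :
    x.right = 1 := by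
  classical
  by_contra hne
  have hNt : Nontrivial (M.map (SemidirectProduct.rightHom : Wr G n →* Equiv.Perm (Fin n))) := by
    refine ⟨⟨1, ⟨x.right, ⟨x, hx, rfl⟩⟩, ?_⟩⟩
    intro h
    exact hne (congrArg Subtype.val h).symm
  have hnorm : (M.map (SemidirectProduct.rightHom : Wr G n →* Equiv.Perm (Fin n))).Normal :=
    hM.map _ SemidirectProduct.rightHom_surjective
  have h5 : 5 ≤ Nat.card (Fin n) := by
    rw [Nat.card_eq_fintype_card, Fintype.card_fin]
    omega
  have hnn : Nontrivial (Fin n) := Fin.nontrivial_iff_two_le.2 (by omega)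
  have h1 := Equiv.Perm.alternatingGroup_le_of_normal h5 hNt
  have h2 : Nat.card (alternatingGroup (Fin n)) ∣ c ^ e := by
    rw [← hc]
    exact (Subgroup.card_dvd_of_le h1).trans (Subgroup.card_map_dvd _ _)
  obtain ⟨p, hp, hp1, hp2⟩ := Nat.exists_prime_lt_and_le_two_mul (c + 2) (by omega)
  have h3 : p ∣ Nat.card (alternatingGroup (Fin n)) := by
    have h4 : p ∣ 2 * Nat.card (alternatingGroup (Fin n)) := by
      rw [two_mul_nat_card_alternatingGroup, Nat.card_perm, Nat.card_eq_fintype_card,
        Fintype.card_fin]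
      exact (Nat.Prime.dvd_factorial hp).2 (hp2.trans hn)
    rcases (Nat.Prime.dvd_mul hp).1 h4 with h | h
    · have := Nat.le_of_dvd (by norm_num) h
      omega
    · exact h
  have h6 := hp.dvd_of_dvd_pow (h3.trans h2)
  have := Nat.le_of_dvd hc0 h6
  omega

theorem card_wr (G : Type) [Group G] [Finite G] (n : ℕ) :
    Nat.card (Wr G n) = Nat.card G ^ n * n.factorial := by
  rw [Nat.card_congr (SemidirectProduct.equivProd (φ := mulAutArrow) (N := Fin n → G)
    (G := Equiv.Perm (Fin n))), Nat.card_prod, Nat.card_fun, Nat.card_perm, Nat.card_fin]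

theorem wr_card_aux {G G' : Type} [Group G] [Group G'] [Finite G] [Finite G'] {n n' : ℕ}
    (hn : 2 * (Nat.card G + 2) ≤ n) (hn' : 2 * (Nat.card G' + 2) ≤ n')
    (φ : Wr G n ≃* Wr G' n') (hle : Nat.card G ≤ Nat.card G') : Nat.card G = Nat.card G' := by
  classical
  have hG := Nat.card_pos (α := G)
  have hG' := Nat.card_pos (α := G')
  have hbase : ∀ b : Wr G n, b.right = 1 → (φ b).right = 1 := by
    intro b hb
    have hinj : Function.Injective (φ : Wr G n →* Wr G' n') := φ.injective
    refine base_le' (Nat.card G) n hG (by omega)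
      ((SemidirectProduct.rightHom : Wr G n →* Equiv.Perm (Fin n)).ker.map
        (φ : Wr G n →* Wr G' n')) ((MonoidHom.normal_ker _).map _ φ.surjective) ?_ (φ b)
      ⟨b, hb, rfl⟩
    rw [← card_base (G := G) (n := n)]
    exact (Nat.card_congr (Subgroup.equivMapOfInjective _ _ hinj).toEquiv).symm
  let f : Equiv.Perm (Fin n) →* Equiv.Perm (Fin n') :=
    SemidirectProduct.rightHom.comp ((φ : Wr G n →* Wr G' n').comp SemidirectProduct.inr)
  have hf : Function.Surjective f := by
    intro σ
    obtain ⟨w, hw⟩ := φ.surjective (SemidirectProduct.inr σ)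
    refine ⟨w.right, ?_⟩
    have h1 : w = SemidirectProduct.inl w.left * SemidirectProduct.inr w.right :=
      (SemidirectProduct.inl_left_mul_inr_right w).symm
    have h2 : (φ w).right = (φ (SemidirectProduct.inl w.left)).right *
        (φ (SemidirectProduct.inr w.right)).right := by
      conv_lhs => rw [h1]
      rw [map_mul]
      rfl
    rw [hbase (SemidirectProduct.inl w.left) rfl, one_mul, hw] at h2
    exact h2.symm
  have hinj : Function.Injective f := by
    rw [← MonoidHom.ker_eq_bot_iff]
    by_contra hne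
    have h5 : 5 ≤ Nat.card (Fin n) := by
      rw [Nat.card_eq_fintype_card, Fintype.card_fin]
      omega
    have hnn : Nontrivial (Fin n) := Fin.nontrivial_iff_two_le.2 (by omega)
    have hNt : Nontrivial f.ker := (Subgroup.nontrivial_iff_ne_bot _).2 hne
    have h1 := Equiv.Perm.alternatingGroup_le_of_normal h5 hNt
    have h2 := Subgroup.card_mul_index f.ker
    rw [Subgroup.index_ker, MonoidHom.range_eq_top.2 hf, Subgroup.card_top] at h2
    have h3 : 2 * Nat.card (alternatingGroup (Fin n)) = Nat.card (Equiv.Perm (Fin n)) :=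
      two_mul_nat_card_alternatingGroup
    have h4 : Nat.card (alternatingGroup (Fin n)) ≤ Nat.card f.ker :=
      Nat.card_le_card_of_injective (Subgroup.inclusion h1) (Subgroup.inclusion_injective h1)
    have h6 : 6 ≤ Nat.card (Equiv.Perm (Fin n')) := by
      rw [Nat.card_perm, Nat.card_fin]
      calc 6 = Nat.factorial 3 := rfl
        _ ≤ n'.factorial := Nat.factorial_le (by omega)
    have h7 : 0 < Nat.card f.ker := Nat.card_pos
    nlinarith
  have hcard : n.factorial = n'.factorial := by
    have h1 := Nat.card_congr (Equiv.ofBijective f ⟨hinj, hf⟩)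
    rwa [Nat.card_perm, Nat.card_perm, Nat.card_fin, Nat.card_fin] at h1
  have hnn : n = n' := (Nat.factorial_inj (by omega)).1 hcard
  subst hnn
  have h8 := Nat.card_congr φ.toEquiv
  rw [card_wr, card_wr] at h8
  have h9 := Nat.eq_of_mul_eq_mul_right (Nat.factorial_pos n) h8
  exact Nat.pow_left_injective (n := n) (by omega) h9

/-- The order of `G` is determined by the wreath product. -/
theorem wr_card {G G' : Type} [Group G] [Group G'] [Finite G] [Finite G'] {n n' : ℕ}
    (hn : 2 * (Nat.card G + 2) ≤ n) (hn' : 2 * (Nat.card G' + 2) ≤ n')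
    (φ : Wr G n ≃* Wr G' n') : Nat.card G = Nat.card G' := by
  rcases le_total (Nat.card G) (Nat.card G') with h | h
  · exact wr_card_aux hn hn' φ h
  · exact (wr_card_aux hn' hn φ.symm h).symm

end uni

end Pool.Agent.H284.AP
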